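import Pool.Agent.Lib.UMB.B.Top

/-! # UMB.B: the inputs of the assembly from `ball` -/

set_option autoImplicit false

open Filter Topology Set MeasureTheory
open scoped ContDiff BigOperators
open Pool.Agent.Lib.PenroseSph (E3 Tens pd chr)
open UMB.Lin (Ann cAnn)

namespace UMB.B

/-- The statement `Bw` of `Asm/In.lean`. -/
theorem Bw {g : Tens} {a : ℝ} (hg : AF g a) (K : ℝ) :
    ∃ c00 : ℝ, 0 ≤ c00 ∧ ∀ c0 : ℝ, c00 ≤ c0 → ∀ q : ℝ, 0 < q → q < 1 → ∃ cq : ℝ, 0 < cq ∧ ∀ N : ℝ,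
      ∀ᶠ R1 in atTop, ∀ R0 : ℝ, ∀ᶠ R in atTop, FA g a K c0 q R1 R0 R fun P v =>
        0 < P.kap v ∧ cq ≤ P.CC v ∧ N ≤ P.T1 v ∧
          ∀ x : E3, 1 < ‖x‖ → ‖x‖ < R → P.th v x < q ^ 2 / 8 → ‖x‖ ≤ Real.exp 2 * (1 + 100 * c0 / q) := by
  obtain ⟨c00, h0, h1⟩ := ball hg K
  refine ⟨c00, h0, fun c0 hc0 q hq hq1 => ?_⟩
  obtain ⟨cq, hcq, h2⟩ := h1 c0 hc0 q hq hq1
  refine ⟨cq, hcq, fun N => ?_⟩
  filter_upwards [h2 N] with R1 h3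
  intro R0
  filter_upwards [h3 R0] with R h4
  refine h4.mono fun P v hP hv hPg hPq hPR1 hPR hPr1 hB => ⟨hB.kap_pos, hB.CC_ge, hB.T1_ge, fun x hx1 hx2 hx3 => ?_⟩
  have h5 := hB.vol x ⟨hx1.le, by rw [hPR]; exact hx2.le⟩ (by rw [hPq]; exact hx3)
  rw [hPr1] at h5
  exact h5

/-- The form used by block F. -/
theorem HVw {g : Tens} {a : ℝ} (hg : AF g a) (K : ℝ) :
    ∃ c00 : ℝ, 0 ≤ c00 ∧ ∀ c0 : ℝ, c00 ≤ c0 → ∀ q : ℝ, 0 < q → q < 1 → ∃ cq : ℝ, 0 < cq ∧ ∀ N : ℝ,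
      ∀ᶠ R1 in atTop, ∀ R0 : ℝ, ∀ᶠ R in atTop, FA g a K c0 q R1 R0 R fun P v =>
        0 < P.kap v ∧ P.kap v ≤ P.v1 ∧ cq ≤ P.CC v ∧ N ≤ P.T1 v ∧
          (∀ x ∈ cAnn P.R, v x ≤ (P.r1 / ‖x‖) ^ (P.q / 2)) ∧
          ∀ r : ℝ, 2 * P.R1 ≤ r → r ≤ P.R → Par.mean v r = P.Cv v * (1 / r - 1 / P.R) := by
  obtain ⟨c00, h0, h1⟩ := ball hg K
  refine ⟨c00, h0, fun c0 hc0 q hq hq1 => ?_⟩
  obtain ⟨cq, hcq, h2⟩ := h1 c0 hc0 q hq hq1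
  refine ⟨cq, hcq, fun N => ?_⟩
  filter_upwards [h2 N] with R1 h3
  intro R0
  filter_upwards [h3 R0] with R h4
  exact h4.mono fun P v hP hv hPg hPq hPR1 hPR hPr1 hB =>
    ⟨hB.kap_pos, hB.kap_le, hB.CC_ge, hB.T1_ge, hB.v_le, hB.fz⟩

/-- The form used by block E: `κ ≥ κ0 > 0` with `κ0` chosen after `R`. -/
theorem Be {g : Tens} {a : ℝ} (hg : AF g a) (K : ℝ) :
    ∃ c00 : ℝ, 0 ≤ c00 ∧ ∀ c0 : ℝ, c00 ≤ c0 → ∀ q : ℝ, 0 < q → q < 1 → ∃ cq Ce : ℝ, 0 < cq ∧ 0 < Ce ∧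
      ∀ᶠ R1 in atTop, ∀ R0 : ℝ, ∀ᶠ R in atTop, ∃ κ0 : ℝ, 0 < κ0 ∧ FA g a K c0 q R1 R0 R fun P v =>
        κ0 ≤ P.kap v ∧ cq ≤ P.CC v ∧ (∀ x ∈ Ann P.R, Real.exp (P.th v x) ≤ Ce * ‖x‖) ∧
          ∀ x ∈ cAnn P.R, v x ≤ (P.r1 / ‖x‖) ^ (q / 2) := by
  obtain ⟨c00, h0, h1⟩ := ball hg K
  refine ⟨c00, h0, fun c0 hc0 q hq hq1 => ?_⟩
  obtain ⟨cq, hcq, h2⟩ := h1 c0 hc0 q hq hq1
  refine ⟨cq, 1 / cq, hcq, by positivity, ?_⟩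
  filter_upwards [h2 0, eventually_gt_atTop 0] with R1 h3 hR10
  intro R0
  filter_upwards [h3 R0, eventually_gt_atTop 0] with R h4 hR0
  have hc : 0 ≤ 100 * c0 / q := by
    have := h0.trans hc0
    positivity
  have hv1 : 0 < min 1 ((2 * (1 + 100 * c0 / q) / R1) ^ (q / 2)) := by positivity
  refine ⟨cq * min 1 ((2 * (1 + 100 * c0 / q) / R1) ^ (q / 2)) / R, by positivity, ?_⟩
  refine h4.mono fun P v hP hv hPg hPq hPR1 hPR hPr1 hB => ⟨?_, hB.CC_ge, fun x hx => ?_, fun x hx => ?_⟩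
  · unfold Par.kap
    rw [hPR]
    refine div_le_div_of_nonneg_right ?_ hR0.le
    have h5 := hB.Cv_ge
    unfold Par.v1 at h5
    rw [hPr1, hPR1, hPq] at h5
    exact h5
  · have h5 := hB.exp_th x ⟨hx.1.le, hx.2.le⟩
    calc Real.exp (P.th v x) ≤ ‖x‖ / cq := h5
      _ = 1 / cq * ‖x‖ := by ring
  · have h5 := hB.v_le x hx
    rw [hPq] at h5
    exact h5

end UMB.B
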