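import Pool.Agent.Lib.UMB.B.Defs
import Pool.Agent.Lib.UMB.BR.Top
import Pool.Agent.Lib.UMB.E.P5
import Pool.Agent.Lib.UMB.E.P7

/-! # UMB.B, chunk Li: the concrete operator satisfies `LinHyp` -/

set_option autoImplicit false

open Filter Topology Set MeasureTheory
open scoped ContDiff BigOperators
open Pool.Agent.Lib.PenroseSph (E3 Tens pd chr)
open UMB.Lin (Ann cAnn)

namespace UMB.B

theorem li_quad_inv {A : Matrix (Fin 3) (Fin 3) ℝ} (hA : A.PosDef) (u : Fin 3 → ℝ) :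
    ∑ i, u i ^ 2 ≤ (∑ i, A⁻¹ i i) * ∑ i, ∑ j, A i j * u i * u j := by
  have h := UMB.E.p5_low hA.inv u
  rw [Matrix.nonsing_inv_nonsing_inv A hA.det_pos.ne'.isUnit] at h
  exact h

/-- Entries of the inverse of a matrix with `A ≥ μ`. -/
theorem li_inv_entry {A : Matrix (Fin 3) (Fin 3) ℝ} (hA : A.PosDef) {μ : ℝ} (hμ : 0 < μ)
    (h : ∀ u : Fin 3 → ℝ, μ * ∑ i, u i ^ 2 ≤ ∑ i, ∑ j, A i j * u i * u j) (i j : Fin 3) : |A⁻¹ i j| ≤ 1 / μ := by
  have hdet : IsUnit A.det := hA.det_pos.ne'.isUnit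
  have h1 : A * A⁻¹ = 1 := Matrix.mul_nonsing_inv A hdet
  set w : Fin 3 → ℝ := fun k => A⁻¹ k j with hw
  have h2 : ∀ k, ∑ l, A k l * w l = if k = j then 1 else 0 := by
    intro k
    have h3 := congrFun (congrFun h1 k) j
    rw [Matrix.mul_apply, Matrix.one_apply] at h3
    exact h3
  have h3 : ∑ k, ∑ l, A k l * w k * w l = w j := by
    have h4 : ∑ k, ∑ l, A k l * w k * w l = ∑ k, w k * ∑ l, A k l * w l := by
      refine Finset.sum_congr rfl fun k _ => ?_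
      rw [Finset.mul_sum]
      exact Finset.sum_congr rfl fun l _ => by ring
    rw [h4]
    simp only [h2]
    simp
  have h4 := h w
  rw [h3] at h4
  have h5 : w j ^ 2 ≤ ∑ k, w k ^ 2 :=
    Finset.single_le_sum (f := fun k => w k ^ 2) (fun _ _ => sq_nonneg _) (Finset.mem_univ j)
  have h6 : w i ^ 2 ≤ ∑ k, w k ^ 2 :=
    Finset.single_le_sum (f := fun k => w k ^ 2) (fun _ _ => sq_nonneg _) (Finset.mem_univ i)
  set s := ∑ k, w k ^ 2 with hs
  have hs0 : 0 ≤ s := Finset.sum_nonneg fun _ _ => sq_nonneg _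
  -- `μ s ≤ w_j ≤ √s`, so `√s ≤ 1/μ`
  have h7 : w j ≤ Real.sqrt s := Real.le_sqrt_of_sq_le h5
  have h8 : |w i| ≤ Real.sqrt s := Real.abs_le_sqrt h6
  have h9 : μ * Real.sqrt s * Real.sqrt s ≤ Real.sqrt s := by
    rw [mul_assoc, Real.mul_self_sqrt hs0]
    linarith
  have h10 : Real.sqrt s ≤ 1 / μ := by
    rcases (Real.sqrt_nonneg s).eq_or_lt with h11 | h11
    · rw [← h11]; positivity
    · have h12 : μ * Real.sqrt s ≤ 1 := by
        have h13 : μ * Real.sqrt s * Real.sqrt s ≤ 1 * Real.sqrt s := by rw [one_mul]; exact h9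
        exact le_of_mul_le_mul_right h13 h11
      rw [le_div_iff₀ hμ]
      linarith
  exact h8.trans h10

/-- Derivative of the cut metric. -/
theorem li_pd {P : Par} (hP : P.Ok) (hg : AF P.g P.a) {x : E3} (hx : 1 ≤ ‖x‖) (i j k : Fin 3) :
    pd k (fun y => P.gh y i j) x =
      (deriv Real.smoothTransition (4 - 2 * (‖x‖ / P.R1)) * (-(2 / P.R1))) * (x k / ‖x‖) *
        (P.g x i j - (1 : Matrix (Fin 3) (Fin 3) ℝ) i j) + P.chi ‖x‖ * pd k (fun y => P.g y i j) x := by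
  have hr : 0 < ‖x‖ := by linarith
  have hx0 : x ≠ 0 := norm_pos_iff.mp hr
  have hR1 := hP.R1_pos
  have h1 : HasDerivAt (fun r : ℝ => P.chi r)
      (deriv Real.smoothTransition (4 - 2 * (‖x‖ / P.R1)) * (-(2 / P.R1))) ‖x‖ := by
    have h2 : HasDerivAt Real.smoothTransition (deriv Real.smoothTransition (4 - 2 * (‖x‖ / P.R1)))
        (4 - 2 * (‖x‖ / P.R1)) :=
      ((Real.smoothTransition.contDiff (n := 1)).differentiable (by norm_num) _).hasDerivAt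
    have h3 : HasDerivAt (fun r : ℝ => 4 - 2 * (r / P.R1)) (-(2 / P.R1)) ‖x‖ := by
      have h4 := (((hasDerivAt_id ‖x‖).div_const P.R1).const_mul 2).const_sub 4
      have h5 : -(2 * (1 / P.R1)) = -(2 / P.R1) := by ring
      rw [h5] at h4
      exact h4
    exact h2.comp ‖x‖ h3
  have hn : HasFDerivAt (fun y : E3 => ‖y‖) ((‖x‖)⁻¹ • innerSL ℝ x) x := by
    have e1 : HasFDerivAt (fun y : E3 => ‖y‖ ^ 2) (2 • innerSL ℝ x) x := (hasStrictFDerivAt_norm_sq x).hasFDerivAt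
    have e2 : HasFDerivAt (fun y : E3 => Real.sqrt (‖y‖ ^ 2)) ((1 / (2 * Real.sqrt (‖x‖ ^ 2))) • (2 • innerSL ℝ x)) x :=
      e1.sqrt (by positivity)
    have e3 : (fun y : E3 => Real.sqrt (‖y‖ ^ 2)) = fun y : E3 => ‖y‖ := by
      funext y
      exact Real.sqrt_sq (norm_nonneg y)
    rw [e3] at e2
    have e4 : (1 / (2 * Real.sqrt (‖x‖ ^ 2))) • ((2 : ℕ) • innerSL ℝ x) = (‖x‖)⁻¹ • innerSL ℝ x := by
      rw [Real.sqrt_sq hr.le]
      ext z
      simp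
      field_simp
    rw [e4] at e2
    exact e2
  have hc : HasFDerivAt (fun y : E3 => P.chi ‖y‖)
      ((deriv Real.smoothTransition (4 - 2 * (‖x‖ / P.R1)) * (-(2 / P.R1))) • ((‖x‖)⁻¹ • innerSL ℝ x)) x :=
    h1.comp_hasFDerivAt x hn
  have hgd : HasFDerivAt (fun y : E3 => P.g y i j) (fderiv ℝ (fun y : E3 => P.g y i j) x) x := by
    have h2 : x ∈ {x : E3 | P.a < ‖x‖} := lt_of_lt_of_le hg.lt hx
    have h3 : IsOpen {x : E3 | P.a < ‖x‖} := isOpen_lt continuous_const continuous_norm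
    exact (((hg.smooth i j).contDiffAt (h3.mem_nhds h2)).differentiableAt (by simp)).hasFDerivAt
  have hp := (hc.mul (hgd.sub (hasFDerivAt_const ((1 : Matrix (Fin 3) (Fin 3) ℝ) i j) x))).add
    (hasFDerivAt_const ((1 : Matrix (Fin 3) (Fin 3) ℝ) i j) x)
  have he : (fun y => P.gh y i j) = fun y : E3 => P.chi ‖y‖ * (P.g y i j - (1 : Matrix (Fin 3) (Fin 3) ℝ) i j)
      + (1 : Matrix (Fin 3) (Fin 3) ℝ) i j := by
    funext y
    unfold Par.gh
    simp only [Matrix.add_apply, Matrix.smul_apply, smul_eq_mul]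
    ring
  have h2 : inner ℝ x (EuclideanSpace.single k (1 : ℝ)) = x k := by
    simp [EuclideanSpace.inner_single_right]
  have hp' : HasFDerivAt (fun y : E3 => P.chi ‖y‖ * (P.g y i j - (1 : Matrix (Fin 3) (Fin 3) ℝ) i j)
      + (1 : Matrix (Fin 3) (Fin 3) ℝ) i j) _ x := hp
  rw [he]
  unfold pd
  rw [hp'.fderiv]
  change (P.chi ‖x‖ * (fderiv ℝ (fun y : E3 => P.g y i j) x (EuclideanSpace.single k 1) - 0)
    + (P.g x i j - (1 : Matrix (Fin 3) (Fin 3) ℝ) i j) *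
      ((deriv Real.smoothTransition (4 - 2 * (‖x‖ / P.R1)) * (-(2 / P.R1))) *
        ((‖x‖)⁻¹ * inner ℝ x (EuclideanSpace.single k (1 : ℝ))))) + 0 = _
  rw [h2]
  ring

/-- **LIN.** -/
theorem lin {g : Tens} {a : ℝ} (hg : AF g a) (K : ℝ) : ∃ C0 lam : ℝ, 0 ≤ C0 ∧ 0 < lam ∧ ∀ P : Par, P.Ok → P.g = g → P.a = a →
    (∀ x : E3, 1 ≤ ‖x‖ → ∀ i j, |P.k x i j| ≤ K / ‖x‖ ^ 2) → LinHyp P.op C0 lam := by
  obtain ⟨C', hC'⟩ := hg.decay
  obtain ⟨C, hCd⟩ : ∃ C : ℝ, C = |C'| := ⟨_, rfl⟩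
  have hC0 : 0 ≤ C := by rw [hCd]; exact abs_nonneg _
  have hC : ∀ x : E3, 1 ≤ ‖x‖ → ∀ i j k, |g x i j - (1 : Matrix (Fin 3) (Fin 3) ℝ) i j| ≤ C / ‖x‖ ∧
      |pd k (fun y => g y i j) x| ≤ C / ‖x‖ ^ 2 := by
    intro x hx i j k
    have hr : 0 < ‖x‖ := by linarith
    obtain ⟨h1, h2⟩ := hC' x hx i j k
    refine ⟨h1.trans ?_, h2.trans ?_⟩
    · exact div_le_div_of_nonneg_right (by rw [hCd]; exact le_abs_self _) hr.le
    · exact div_le_div_of_nonneg_right (by rw [hCd]; exact le_abs_self _) (by positivity)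
  obtain ⟨Λ, hΛ⟩ := UMB.E.exists_cmp hg
  have hΛ0 := hΛ.pos
  obtain ⟨L, hL0, hL⟩ := UMB.E.p7_deriv_bd
  obtain ⟨μ, hμd⟩ : ∃ μ : ℝ, μ = min 1 (1 / (3 * Λ)) := ⟨_, rfl⟩
  have hμ : 0 < μ := by rw [hμd]; positivity
  have hμ1 : μ ≤ 1 := by rw [hμd]; exact min_le_left _ _
  have hμ2 : μ ≤ 1 / (3 * Λ) := by rw [hμd]; exact min_le_right _ _
  obtain ⟨E, hEd⟩ : ∃ E : ℝ, E = 4 * L * C + C := ⟨_, rfl⟩
  have hE : 0 ≤ E := by rw [hEd]; positivity
  obtain ⟨C0, hC0d⟩ : ∃ C0 : ℝ, C0 = 3 * C / μ + 5 * E / μ + |K| := ⟨_, rfl⟩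
  have hC00 : 0 ≤ C0 := by rw [hC0d]; positivity
  refine ⟨C0, 1 / (3 * (1 + C)), hC00, by positivity, fun P hP hPg hPa hk => ?_⟩
  have hgP : AF P.g P.a := by rw [hPg, hPa]; exact hg
  have hmet := UMB.BR.met hgP hP
  have hmem : ∀ x : E3, 1 ≤ ‖x‖ → x ∈ {x : E3 | max P.a 0 < ‖x‖} := fun x hx =>
    lt_of_lt_of_le (max_lt hgP.lt one_pos) hx
  have hchi0 : ∀ x : E3, 0 ≤ P.chi ‖x‖ := fun x => Real.smoothTransition.nonneg _
  have hchi1 : ∀ x : E3, P.chi ‖x‖ ≤ 1 := fun x => Real.smoothTransition.le_one _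
  have hent : ∀ x : E3, 1 ≤ ‖x‖ → ∀ i j, |P.gh x i j - (1 : Matrix (Fin 3) (Fin 3) ℝ) i j| ≤ C / ‖x‖ := by
    intro x hx i j
    have h1 : P.gh x i j - (1 : Matrix (Fin 3) (Fin 3) ℝ) i j
        = P.chi ‖x‖ * (g x i j - (1 : Matrix (Fin 3) (Fin 3) ℝ) i j) := by
      unfold Par.gh
      simp only [Matrix.add_apply, Matrix.smul_apply, smul_eq_mul, hPg]
      ring
    rw [h1, abs_mul, abs_of_nonneg (hchi0 x)]
    calc P.chi ‖x‖ * |g x i j - (1 : Matrix (Fin 3) (Fin 3) ℝ) i j|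
        ≤ 1 * |g x i j - (1 : Matrix (Fin 3) (Fin 3) ℝ) i j| := mul_le_mul_of_nonneg_right (hchi1 x) (abs_nonneg _)
      _ ≤ C / ‖x‖ := by rw [one_mul]; exact (hC x hx i j 0).1
  have hpd : ∀ x : E3, 1 ≤ ‖x‖ → (P.gh x).PosDef := fun x hx => hmet.posDef (hmem x hx)
  -- lower bound of `gh`
  have hlow : ∀ x : E3, 1 ≤ ‖x‖ → ∀ u : Fin 3 → ℝ, μ * ∑ i, u i ^ 2 ≤ ∑ i, ∑ j, P.gh x i j * u i * u j := by
    intro x hx u
    have hgx : (g x).PosDef := by
      have hM := UMB.E.AF.met hg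
      exact hM.posDef (lt_of_lt_of_le hg.lt hx)
    have h1 := li_quad_inv hgx u
    have h2 : ∑ i, (g x)⁻¹ i i ≤ 3 * Λ := by
      rw [Fin.sum_univ_three]
      have a0 := (abs_le.1 (hΛ.inv x hx 0 0)).2
      have a1 := (abs_le.1 (hΛ.inv x hx 1 1)).2
      have a2 := (abs_le.1 (hΛ.inv x hx 2 2)).2
      linarith
    have h3 : 0 ≤ ∑ i, ∑ j, g x i j * u i * u j := by
      have h4 := hgx.posSemidef.dotProduct_mulVec_nonneg u
      have h5 : star u ⬝ᵥ (g x).mulVec u = ∑ i, ∑ j, g x i j * u i * u j := by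
        simp only [dotProduct, Matrix.mulVec, Pi.star_apply, star_trivial, Finset.mul_sum]
        exact Finset.sum_congr rfl fun i _ => Finset.sum_congr rfl fun j _ => by ring
      rw [h5] at h4
      exact h4
    have h4 : μ * ∑ i, u i ^ 2 ≤ ∑ i, ∑ j, g x i j * u i * u j := by
      have h5 : ∑ i, u i ^ 2 ≤ 3 * Λ * ∑ i, ∑ j, g x i j * u i * u j :=
        h1.trans (mul_le_mul_of_nonneg_right h2 h3)
      have hs : 0 ≤ ∑ i, u i ^ 2 := Finset.sum_nonneg fun _ _ => sq_nonneg _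
      calc μ * ∑ i, u i ^ 2 ≤ 1 / (3 * Λ) * ∑ i, u i ^ 2 := mul_le_mul_of_nonneg_right hμ2 hs
        _ ≤ 1 / (3 * Λ) * (3 * Λ * ∑ i, ∑ j, g x i j * u i * u j) := mul_le_mul_of_nonneg_left h5 (by positivity)
        _ = ∑ i, ∑ j, g x i j * u i * u j := by field_simp
    have h5 : ∑ i, ∑ j, P.gh x i j * u i * u j
        = P.chi ‖x‖ * (∑ i, ∑ j, g x i j * u i * u j) + (1 - P.chi ‖x‖) * ∑ i, u i ^ 2 := by
      unfold Par.gh
      simp only [Fin.sum_univ_three, Matrix.add_apply, Matrix.smul_apply, Matrix.one_apply, smul_eq_mul, hPg]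
      simp
      ring
    have hs : 0 ≤ ∑ i, u i ^ 2 := Finset.sum_nonneg fun _ _ => sq_nonneg _
    rw [h5]
    have h6 := mul_le_mul_of_nonneg_left h4 (hchi0 x)
    have h7 : (1 - P.chi ‖x‖) * (μ * ∑ i, u i ^ 2) ≤ (1 - P.chi ‖x‖) * ∑ i, u i ^ 2 := by
      refine mul_le_mul_of_nonneg_left ?_ (sub_nonneg.mpr (hchi1 x))
      calc μ * ∑ i, u i ^ 2 ≤ 1 * ∑ i, u i ^ 2 := mul_le_mul_of_nonneg_right hμ1 hs
        _ = ∑ i, u i ^ 2 := one_mul _
    linarith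
  have hinv : ∀ x : E3, 1 ≤ ‖x‖ → ∀ i j, |(P.gh x)⁻¹ i j| ≤ 1 / μ := fun x hx i j =>
    li_inv_entry (hpd x hx) hμ (hlow x hx) i j
  have hpdb : ∀ x : E3, 1 ≤ ‖x‖ → ∀ i j k, |pd k (fun y => P.gh y i j) x| ≤ E / ‖x‖ ^ 2 := by
    intro x hx i j k
    have hr : 0 < ‖x‖ := by linarith
    have hR1 := hP.R1_pos
    rcases le_or_gt ‖x‖ (2 * P.R1) with hle | hgt
    · rw [li_pd hP hgP hx i j k, hPg]
      have h1 : |x k / ‖x‖| ≤ 1 := by
        rw [abs_div, abs_norm, div_le_one hr]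
        have h0 := PiLp.norm_apply_le x k
        rwa [Real.norm_eq_abs] at h0
      have h2 := (hC x hx i j k).1
      have h3 := (hC x hx i j k).2
      have h4 : |deriv Real.smoothTransition (4 - 2 * (‖x‖ / P.R1)) * (-(2 / P.R1))| ≤ 4 * L / ‖x‖ := by
        rw [abs_mul, abs_neg, abs_of_pos (by positivity : (0 : ℝ) < 2 / P.R1)]
        have h5 : 2 / P.R1 ≤ 4 / ‖x‖ := by
          rw [div_le_div_iff₀ hR1 hr]
          linarith
        calc |deriv Real.smoothTransition (4 - 2 * (‖x‖ / P.R1))| * (2 / P.R1) ≤ L * (4 / ‖x‖) :=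
              mul_le_mul (hL _) h5 (by positivity) hL0.le
          _ = 4 * L / ‖x‖ := by ring
      have h5 : |(deriv Real.smoothTransition (4 - 2 * (‖x‖ / P.R1)) * (-(2 / P.R1))) * (x k / ‖x‖) *
          (g x i j - (1 : Matrix (Fin 3) (Fin 3) ℝ) i j)| ≤ 4 * L / ‖x‖ * 1 * (C / ‖x‖) := by
        rw [abs_mul, abs_mul]
        gcongr
      have h6 : |P.chi ‖x‖ * pd k (fun y => g y i j) x| ≤ C / ‖x‖ ^ 2 := by
        rw [abs_mul, abs_of_nonneg (hchi0 x)]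
        calc P.chi ‖x‖ * |pd k (fun y => g y i j) x| ≤ 1 * |pd k (fun y => g y i j) x| :=
              mul_le_mul_of_nonneg_right (hchi1 x) (abs_nonneg _)
          _ ≤ C / ‖x‖ ^ 2 := by rw [one_mul]; exact h3
      refine (abs_add_le _ _).trans ((add_le_add h5 h6).trans (le_of_eq ?_))
      rw [hEd]
      field_simp
    · have h1 := UMB.BR.gh_ev_flat hP hgt
      have h2 : (fun y => P.gh y i j) =ᶠ[𝓝 x] fun _ => (1 : Matrix (Fin 3) (Fin 3) ℝ) i j := by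
        filter_upwards [h1] with y hy
        rw [hy]
      have h3 : pd k (fun y => P.gh y i j) x = 0 := by
        unfold pd
        rw [h2.fderiv_eq]
        simp
      rw [h3, abs_zero]
      positivity
  refine ⟨hC00, by positivity, fun x hx i j => ?_, fun x hx i k l => ?_, fun x hx i j => ?_, fun x hx u => ?_⟩
  · -- the inverse
    have hx1 : 1 ≤ ‖x‖ := hx.1
    have hr : 0 < ‖x‖ := by linarith
    have h1 : (P.gh x)⁻¹ * P.gh x = 1 := Matrix.nonsing_inv_mul _ (hpd x hx1).det_pos.ne'.isUnit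
    have h2 : (P.gh x)⁻¹ - 1 = -((P.gh x)⁻¹ * (P.gh x - 1)) := by
      rw [Matrix.mul_sub, h1, Matrix.mul_one]
      abel
    have h3 : (P.gh x)⁻¹ i j - (1 : Matrix (Fin 3) (Fin 3) ℝ) i j
        = -(∑ l, (P.gh x)⁻¹ i l * (P.gh x l j - (1 : Matrix (Fin 3) (Fin 3) ℝ) l j)) := by
      have h4 := congrFun (congrFun h2 i) j
      rw [Matrix.sub_apply, Matrix.neg_apply, Matrix.mul_apply] at h4
      rw [h4]
      rfl
    change |(P.gh x)⁻¹ i j - (1 : Matrix (Fin 3) (Fin 3) ℝ) i j| ≤ C0 / ‖x‖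
    rw [h3, abs_neg]
    have h4 : |∑ l, (P.gh x)⁻¹ i l * (P.gh x l j - (1 : Matrix (Fin 3) (Fin 3) ℝ) l j)|
        ≤ ∑ _l : Fin 3, 1 / μ * (C / ‖x‖) := by
      refine (Finset.abs_sum_le_sum_abs _ _).trans (Finset.sum_le_sum fun l _ => ?_)
      rw [abs_mul]
      exact mul_le_mul (hinv x hx1 i l) (hent x hx1 l j) (abs_nonneg _) (by positivity)
    refine h4.trans ?_
    simp only [Finset.sum_const, Finset.card_univ, Fintype.card_fin, nsmul_eq_mul]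
    push_cast
    have h5 : 3 * (1 / μ * (C / ‖x‖)) = (3 * C / μ) / ‖x‖ := by ring
    rw [h5]
    refine div_le_div_of_nonneg_right ?_ hr.le
    rw [hC0d]
    have : 0 ≤ 5 * E / μ := by positivity
    have : 0 ≤ |K| := abs_nonneg _
    linarith
  · -- Christoffel symbols
    have hx1 : 1 ≤ ‖x‖ := hx.1
    have hr : 0 < ‖x‖ := by linarith
    change |chr P.gh i k l x| ≤ C0 / ‖x‖ ^ 2
    unfold chr
    have h4 : |∑ m, (P.gh x)⁻¹ i m * (pd k (fun y => P.gh y l m) x + pd l (fun y => P.gh y k m) x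
        - pd m (fun y => P.gh y k l) x)| ≤ ∑ _m : Fin 3, 1 / μ * (3 * (E / ‖x‖ ^ 2)) := by
      refine (Finset.abs_sum_le_sum_abs _ _).trans (Finset.sum_le_sum fun m _ => ?_)
      rw [abs_mul]
      refine mul_le_mul (hinv x hx1 i m) ?_ (abs_nonneg _) (by positivity)
      have e1 := abs_le.mp (hpdb x hx1 l m k)
      have e2 := abs_le.mp (hpdb x hx1 k m l)
      have e3 := abs_le.mp (hpdb x hx1 k l m)
      rw [abs_le]
      constructor <;> linarith [e1.1, e1.2, e2.1, e2.2, e3.1, e3.2]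
    simp only [Finset.sum_const, Finset.card_univ, Fintype.card_fin, nsmul_eq_mul] at h4
    push_cast at h4
    rw [abs_mul]
    have h5 : |(1 : ℝ) / 2| = 1 / 2 := by norm_num
    rw [h5]
    have h6 : (1 : ℝ) / 2 * (3 * (1 / μ * (3 * (E / ‖x‖ ^ 2)))) ≤ (5 * E / μ) / ‖x‖ ^ 2 := by
      have h7 : (5 * E / μ) / ‖x‖ ^ 2 = 5 * (1 / μ * (E / ‖x‖ ^ 2)) := by ring
      have h8 : 0 ≤ 1 / μ * (E / ‖x‖ ^ 2) := by positivity
      rw [h7]
      linarith
    have h7 : (5 * E / μ) / ‖x‖ ^ 2 ≤ C0 / ‖x‖ ^ 2 := by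
      refine div_le_div_of_nonneg_right ?_ (by positivity)
      rw [hC0d]
      have : 0 ≤ 3 * C / μ := by positivity
      have : 0 ≤ |K| := abs_nonneg _
      linarith
    linarith
  · -- the tensor
    have hx1 : 1 ≤ ‖x‖ := hx.1
    have hr : 0 < ‖x‖ := by linarith
    change |P.kh x i j| ≤ C0 / ‖x‖ ^ 2
    unfold Par.kh
    rw [Matrix.smul_apply, smul_eq_mul, abs_mul]
    have h1 : |P.chk ‖x‖| ≤ 1 := by
      rw [abs_le]
      have e1 : 0 ≤ P.chk ‖x‖ := Real.smoothTransition.nonneg _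
      have e2 : P.chk ‖x‖ ≤ 1 := Real.smoothTransition.le_one _
      constructor <;> linarith
    calc |P.chk ‖x‖| * |P.k x i j| ≤ 1 * (K / ‖x‖ ^ 2) :=
          mul_le_mul h1 (hk x hx1 i j) (abs_nonneg _) (by norm_num)
      _ ≤ C0 / ‖x‖ ^ 2 := by
          rw [one_mul]
          refine div_le_div_of_nonneg_right ?_ (by positivity)
          rw [hC0d]
          have e1 : 0 ≤ 3 * C / μ := by positivity
          have e2 : 0 ≤ 5 * E / μ := by positivity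
          linarith [le_abs_self K]
  · -- ellipticity
    have hx1 : 1 ≤ ‖x‖ := hx.1
    have hr : 0 < ‖x‖ := by linarith
    change 1 / (3 * (1 + C)) * vsq u ≤ q1 ((P.gh x)⁻¹) u
    have h1 := UMB.E.p5_low (hpd x hx1) u
    have h2 : ∑ i, P.gh x i i ≤ 3 * (1 + C) := by
      rw [Fin.sum_univ_three]
      have hc : C / ‖x‖ ≤ C := div_le_self hC0 hx1
      have a0 := (abs_le.1 (hent x hx1 0 0)).2
      have a1 := (abs_le.1 (hent x hx1 1 1)).2
      have a2 := (abs_le.1 (hent x hx1 2 2)).2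
      simp at a0 a1 a2
      linarith
    have h3 : 0 ≤ q1 ((P.gh x)⁻¹) u := by
      have h4 := (hpd x hx1).inv.posSemidef.dotProduct_mulVec_nonneg u
      have h5 : star u ⬝ᵥ ((P.gh x)⁻¹).mulVec u = q1 ((P.gh x)⁻¹) u := by
        simp only [q1, dotProduct, Matrix.mulVec, Pi.star_apply, star_trivial, Finset.mul_sum]
        exact Finset.sum_congr rfl fun i _ => Finset.sum_congr rfl fun j _ => by ring
      rw [h5] at h4
      exact h4
    have h4 : vsq u ≤ 3 * (1 + C) * q1 ((P.gh x)⁻¹) u := h1.trans (mul_le_mul_of_nonneg_right h2 h3)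
    calc 1 / (3 * (1 + C)) * vsq u ≤ 1 / (3 * (1 + C)) * (3 * (1 + C) * q1 ((P.gh x)⁻¹) u) :=
          mul_le_mul_of_nonneg_left h4 (by positivity)
      _ = q1 ((P.gh x)⁻¹) u := by field_simp

end UMB.B
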