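import Pool.Agent.Lib.UMB.B.Fn
import Pool.Agent.Lib.UMB.B.Li
import Pool.Agent.Lib.UMB.BR.Hopf
import Pool.Agent.Lib.UMB.Far.T5
import Pool.Agent.Lib.UMB.W.M8
import Pool.Agent.Lib.UMB.Asm.FA

/-! # UMB.B: the export of block B -/

set_option autoImplicit false

open Filter Topology Set MeasureTheory
open scoped ContDiff BigOperators
open Pool.Agent.Lib.PenroseSph (E3 Tens pd chr)
open UMB.Lin (Ann cAnn)

namespace UMB.B

/-- THE EXPORT OF BLOCK B. -/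
structure BF (cq N : ℝ) (P : Par) (v : E3 → ℝ) : Prop where
  opok : P.op.Ok
  lin : ∃ C0 lam : ℝ, LinHyp P.op C0 lam ∧ 1 + 100 * C0 / P.q ≤ P.r1
  btw : ∀ x ∈ Ann P.R, 0 < v x ∧ v x < 1
  kap_pos : 0 < P.kap v
  kap_le : P.kap v ≤ P.v1
  v1_le : 2 * P.v1 ≤ 1
  CC_ge : cq ≤ P.CC v
  Cv_pos : 0 < P.Cv v
  Cv_ge : cq * P.v1 ≤ P.Cv v
  Cv_le : P.Cv v ≤ 4 * P.R1 * P.v1
  exp_th : ∀ x ∈ cAnn P.R, Real.exp (P.th v x) ≤ ‖x‖ / cq
  exp_T : Real.exp (P.T v) ≤ P.R / cq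
  v_le : ∀ x ∈ cAnn P.R, v x ≤ (P.r1 / ‖x‖) ^ (P.q / 2)
  v_v1 : ∀ x ∈ cAnn P.R, P.R1 / 2 ≤ ‖x‖ → v x ≤ P.v1
  vd_v1 : ∀ x : E3, P.R1 / 2 + P.d ≤ ‖x‖ → P.op.vd v x ≤ P.v1
  T1_ge : N ≤ P.T1 v
  T12 : P.T2 v - P.T1 v ≤ Real.log 2
  T1_T : P.T1 v ≤ P.T v
  shell : ∀ x ∈ cAnn P.R, P.v1 ≤ v x → v x ≤ 2 * P.v1 → 4 ≤ ‖x‖ ∧ ‖x‖ ≤ P.R1 / 2
  vol : ∀ x ∈ cAnn P.R, P.th v x < P.q ^ 2 / 8 → ‖x‖ ≤ Real.exp 2 * P.r1
  exp_neg : ∀ x ∈ cAnn P.R, v x ≤ P.v1 → Real.exp (-P.th v x) = P.Cst v * (v x + P.kap v)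
  CC_eq : P.CC v = P.Cst v * P.Cv v
  fz : ∀ r : ℝ, 2 * P.R1 ≤ r → r ≤ P.R → Par.mean v r = P.Cv v * (1 / r - 1 / P.R)

/-- `v1` tends to zero. -/
theorem v1_small (c0 q : ℝ) (_hc : 0 ≤ c0) (hq : 0 < q) {t : ℝ} (ht : 0 < t) :
    ∀ᶠ R1 : ℝ in atTop, min 1 ((2 * (1 + 100 * c0 / q) / R1) ^ (q / 2)) ≤ t := by
  have h1 : Tendsto (fun R1 : ℝ => (2 * (1 + 100 * c0 / q) / R1) ^ (q / 2)) atTop (𝓝 (0 ^ (q / 2))) := by
    refine Tendsto.rpow_const ?_ (Or.inr (by positivity))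
    exact tendsto_const_nhds.div_atTop tendsto_id
  rw [Real.zero_rpow (by positivity)] at h1
  filter_upwards [h1.eventually (gt_mem_nhds ht)] with R1 h2
  exact (min_le_right _ _).trans h2.le

theorem F_v1_nonneg {P : Par} (hP : P.Ok) {v : E3 → ℝ} (hκ : 0 < P.kap v) : 0 ≤ P.F v P.v1 := by
  have hv1 : 0 < P.v1 := hP.v1_pos
  have hv11 : P.v1 ≤ 1 := by unfold Par.v1; exact min_le_left _ _
  exact (W.FF_bd hP.expo hκ hv1.le hv11).1

theorem Cst_le {P : Par} (hP : P.Ok) {v : E3 → ℝ} (hκ : 0 < P.kap v) : P.Cst v ≤ 1 / P.v1 := by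
  have hv1 : 0 < P.v1 := hP.v1_pos
  have h1 := F_v1_nonneg hP hκ
  unfold Par.Cst
  have h2 : Real.exp (-P.F v P.v1) ≤ 1 := Real.exp_le_one_iff.mpr (by linarith)
  exact div_le_div₀ zero_le_one h2 hv1 (by linarith)

/-- The pointwise part. -/
theorem bf_of {P : Par} {v : E3 → ℝ} {C0 lam N : ℝ} (hP : P.Ok) (hD : P.op.Ok) (hL : LinHyp P.op C0 lam) (hv : W.Sol P.op v)
    (hr1 : 1 + 100 * C0 / P.q ≤ P.r1) (hR16 : 16 * P.R1 ≤ P.R) (hR : Rm C0 lam P.q ≤ P.R)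
    (hN : Real.log 4 + cc C0 lam P.q ≤ N) (hv1 : P.v1 ≤ 1 / 4) (hNv : N ≤ P.q / 2 * Real.log (2 / (5 * P.v1)))
    (hsm : ∀ x ∈ cAnn P.R, P.p (v x) - P.p (P.op.vd v x) ≤ P.q ^ 2 / (12 * Real.sqrt P.R)) :
    BF (Real.exp (-cc C0 lam P.q)) N P v := by
  have hbt : ∀ x ∈ Ann P.R, 0 < v x ∧ v x < 1 := fun x hx => UMB.BR.sol_between hD hv hx
  have hvv1 : ∀ x ∈ cAnn P.R, P.R1 / 2 ≤ ‖x‖ → v x ≤ P.v1 := fun x hx h => v_le_v1 hP hD hL hv hr1 hx h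
  obtain ⟨hR1, hR1', hR2, hR0⟩ := fn_R hP
  have hR12 : 1 ≤ P.R1 / 2 := by linarith [hP.r1_ge, hP.R1_ge]
  obtain ⟨hCv, hfz, -, -⟩ := UMB.Far.far_zone hP hR16 hv (fun x h1 h2 => (hbt x ⟨h1, h2⟩).1)
    (fun x h1 h2 => hvv1 x ⟨by linarith, h2⟩ h1)
  have hF : Fz P v := hfz
  obtain ⟨hκ, hth, hT⟩ := th_le hP hD hL hv hR hF hsm
  obtain ⟨hthl, hTl⟩ := th_le_log hP hD hL hv hR hF hsm
  have hCC := CC_ge hP hD hL hv hR hF hsm
  obtain ⟨hC1, hC2, hC3⟩ := Cv_le hP hD hL hv hr1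
  have hv1p : 0 < P.v1 := hP.v1_pos
  have hT1 := T1_ge hP hκ hC3 (by linarith)
  have hexp : ∀ r t : ℝ, 0 < r → t ≤ Real.log r + cc C0 lam P.q → Real.exp t ≤ r / Real.exp (-cc C0 lam P.q) := by
    intro r t hr ht
    have h1 : r / Real.exp (-cc C0 lam P.q) = Real.exp (Real.log r + cc C0 lam P.q) := by
      rw [Real.exp_add, Real.exp_log hr, Real.exp_neg, div_inv_eq_mul]
    rw [h1]
    exact Real.exp_le_exp.mpr ht
  have hCeq := CC_eq (v := v) hP hκ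
  have hCst := Cst_le (v := v) hP hκ
  refine ⟨hD, ⟨C0, lam, hL, hr1⟩, hbt, hκ, hC3, by linarith, hCC, hCv, ?_, hC1,
    fun x hx => hexp _ _ (ko_r (D := P.op) hx) (hthl x hx), hexp _ _ hR0 hTl, v_le_par hP hD hL hv hr1, hvv1,
    fun x h => vd_le_v1 hP hD hL hv hr1 h, hNv.trans hT1, T2_le hP hκ (by linarith), T1_le_T hP hκ, ?_,
    fun x hx h => vol_sub hP hD hL hv hr1 hκ hx h, fun x hx h => exp_th hP hv hκ hx h, hCeq, hfz⟩
  · -- `cq v1 ≤ C v1 ≤ Cv`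
    rw [hCeq] at hCC
    have h1 : P.Cst v * P.Cv v ≤ 1 / P.v1 * P.Cv v := mul_le_mul_of_nonneg_right hCst hCv.le
    have h2 : Real.exp (-cc C0 lam P.q) ≤ P.Cv v / P.v1 := by
      refine hCC.trans (h1.trans (le_of_eq ?_))
      ring
    rwa [le_div_iff₀ hv1p] at h2
  · intro x hx h1 h2
    constructor
    · have h3 : P.T1 v ≤ P.th v x :=
        (W.FF_anti hP.expo hκ).antitoneOn (mem_Ici.mpr (hv.nonneg x hx)) (mem_Ici.mpr (by positivity)) h2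
      have h4 := hthl x hx
      have h5 : Real.log 4 ≤ Real.log ‖x‖ := by linarith
      exact (Real.log_le_log_iff (by norm_num) (ko_r (D := P.op) hx)).mp h5
    · by_contra hcon
      push Not at hcon
      have hr := ko_r (D := P.op) hx
      have h3 := v_le_par hP hD hL hv hr1 x hx
      have h0 := hP.r1_ge
      have hq := hP.q_pos
      have h4 : (P.r1 / ‖x‖) ^ (P.q / 2) < (2 * P.r1 / P.R1) ^ (P.q / 2) := by
        refine Real.rpow_lt_rpow (by positivity) ?_ (by positivity)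
        rw [div_lt_div_iff₀ hr hR1]
        nlinarith
      have h5 : P.v1 = (2 * P.r1 / P.R1) ^ (P.q / 2) := by
        rcases min_choice 1 ((2 * P.r1 / P.R1) ^ (P.q / 2)) with h6 | h6
        · exfalso
          have : P.v1 = 1 := h6
          linarith
        · exact h6
      linarith

theorem BF.mono {cq N N' : ℝ} {P : Par} {v : E3 → ℝ} (h : BF cq N' P v) (hN : N ≤ N') : BF cq N P v :=
  { h with T1_ge := hN.trans h.T1_ge }

/-- The exponent is uniformly continuous on `[0,1]`. -/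
theorem p_unif {P : Par} (hP : P.Ok) {e : ℝ} (he : 0 < e) : ∃ δ : ℝ, 0 < δ ∧ ∀ z z' : ℝ, z ∈ Icc (0 : ℝ) 1 → z' ∈ Icc (0 : ℝ) 1 →
    |z - z'| < δ → |P.p z - P.p z'| < e := by
  have h1 : UniformContinuousOn P.p (Icc 0 1) :=
    isCompact_Icc.uniformContinuousOn_of_continuous hP.expo.smooth.continuous.continuousOn
  obtain ⟨δ, hδ, h2⟩ := Metric.uniformContinuousOn_iff.mp h1 e he
  refine ⟨δ, hδ, fun z z' hz hz' hzz => ?_⟩
  have h3 := h2 z hz z' hz' (by rw [Real.dist_eq]; exact hzz)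
  rwa [Real.dist_eq] at h3

/-- **BLOCK B**. -/
theorem ball {g : Tens} {a : ℝ} (hg : AF g a) (K : ℝ) :
    ∃ c00 : ℝ, 0 ≤ c00 ∧ ∀ c0 : ℝ, c00 ≤ c0 → ∀ q : ℝ, 0 < q → q < 1 → ∃ cq : ℝ, 0 < cq ∧ ∀ N : ℝ,
      ∀ᶠ R1 in atTop, ∀ R0 : ℝ, ∀ᶠ R in atTop, FA g a K c0 q R1 R0 R (BF cq N) := by
  obtain ⟨C0, lam, hC0, hlam, hlin⟩ := lin hg K
  refine ⟨C0, hC0, fun c0 hc0 q hq hq1 => ⟨Real.exp (-cc C0 lam q), Real.exp_pos _, fun N => ?_⟩⟩
  obtain ⟨N', hN'⟩ : ∃ N' : ℝ, N' = max N (Real.log 4 + cc C0 lam q) := ⟨_, rfl⟩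
  have ht : 0 < min (1 / 4) (2 / 5 * Real.exp (-(2 * N' / q))) := by positivity
  filter_upwards [v1_small c0 q (hC0.trans hc0) hq ht] with R1 hR1
  intro R0
  filter_upwards [eventually_ge_atTop (16 * R1), eventually_ge_atTop (Rm C0 lam q)] with R hR16 hRm
  intro k η η0 δ' h0 hA eta hM
  filter_upwards [self_mem_nhdsWithin] with eps heps
  by_cases hOk1 : (mkP g k a c0 q R1 R eps 1 eta).Ok
  swap
  · filter_upwards [self_mem_nhdsWithin] with d hd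
    intro hOk
    exfalso
    apply hOk1
    exact ⟨hOk.q_pos, hOk.q_lt, hOk.r1_ge, hOk.R1_ge, hOk.R_ge, hOk.eps_pos, hOk.eps_le, one_pos, le_rfl, hOk.eta_smooth,
      hOk.eta_nonneg, hOk.eta_supp, hOk.eta_int⟩
  obtain ⟨P1, hP1⟩ : ∃ P1 : Par, P1 = mkP g k a c0 q R1 R eps 1 eta := ⟨_, rfl⟩
  have hOk1' : P1.Ok := by rw [hP1]; exact hOk1
  have hD1 : P1.op.Ok := by rw [hP1]; exact UMB.BR.op_ok hg hA hOk1
  have hL1 : LinHyp P1.op C0 lam := by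
    refine hlin P1 hOk1' (by rw [hP1]; rfl) (by rw [hP1]; rfl) ?_
    rw [hP1]
    exact hA.bound
  -- a bound for the mollifier
  obtain ⟨M, hMb⟩ : ∃ M : ℝ, ∀ x, eta x ≤ M := by
    have hcs : HasCompactSupport eta := by
      refine HasCompactSupport.of_support_subset_isCompact (isCompact_closedBall (0 : E3) 1) ?_
      intro y hy
      rw [mem_closedBall_zero_iff]
      by_contra hc
      exact hy (hM.supp y (not_le.1 hc).le)
    obtain ⟨M, hMb⟩ := hM.smooth.continuous.bounded_above_of_compact_support hcs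
    exact ⟨M, fun x => (le_abs_self _).trans (hMb x)⟩
  obtain ⟨C, hC, hsup⟩ := W.sol_sup hD1 C0 M
  have hR0 : 0 < R := by
    have h2 := (fn_R hOk1').2.2.2
    rw [hP1] at h2
    exact h2
  obtain ⟨δ, hδ, hunif⟩ := p_unif hOk1' (e := q ^ 2 / (12 * Real.sqrt R)) (by positivity)
  have htend : Tendsto (fun d : ℝ => C * d ^ (1 / 4 : ℝ)) (𝓝[>] 0) (𝓝 0) := by
    have h2 : Tendsto (fun d : ℝ => C * d ^ (1 / 4 : ℝ)) (𝓝 0) (𝓝 (C * 0 ^ (1 / 4 : ℝ))) :=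
      (Real.continuousAt_rpow_const _ _ (Or.inr (by norm_num))).tendsto.const_mul C
    rw [Real.zero_rpow (by norm_num), mul_zero] at h2
    exact h2.mono_left nhdsWithin_le_nhds
  filter_upwards [self_mem_nhdsWithin, htend.eventually (gt_mem_nhds hδ)] with d hd hdC
  intro hOk v hv
  obtain ⟨P, hP⟩ : ∃ P : Par, P = mkP g k a c0 q R1 R eps d eta := ⟨_, rfl⟩
  have hD : (mkP g k a c0 q R1 R eps d eta).op.Ok := UMB.BR.op_ok hg hA hOk
  have hupd : W.OpData.updk P1.op P1.op.k eps d eta = (mkP g k a c0 q R1 R eps d eta).op := by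
    rw [hP1]; rfl
  have hkb : ∀ x ∈ cAnn P1.op.R, ∀ i j, |P1.op.k x i j| ≤ C0 := by
    intro x hx i j
    refine (hL1.k_le x hx i j).trans ?_
    exact div_le_self hC0 (one_le_pow₀ hx.1)
  have hs := hsup P1.op.k eps d eta hkb hMb (by rw [hupd]; exact hD) v (by rw [hupd]; exact hv)
  rw [hupd] at hs
  have hL : LinHyp (mkP g k a c0 q R1 R eps d eta).op C0 lam := hlin _ hOk rfl rfl hA.bound
  have hv1s : (mkP g k a c0 q R1 R eps d eta).v1 ≤ min (1 / 4) (2 / 5 * Real.exp (-(2 * N' / q))) := hR1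
  have hv1p : 0 < (mkP g k a c0 q R1 R eps d eta).v1 := hOk.v1_pos
  rw [← hP] at hOk hv hD hL hv1s hv1p hs ⊢
  have hPq : P.q = q := by rw [hP]; rfl
  have hPR1 : P.R1 = R1 := by rw [hP]; rfl
  have hPR : P.R = R := by rw [hP]; rfl
  have hPp : P.p = P1.p := by rw [hP, hP1]; rfl
  have hbf : BF (Real.exp (-cc C0 lam P.q)) N' P v := by
    refine bf_of hOk hD hL hv ?_ (by rw [hPR1, hPR]; exact hR16) (by rw [hPq, hPR]; exact hRm)
      (by rw [hN', hPq]; exact le_max_right _ _) (hv1s.trans (min_le_left _ _)) ?_ ?_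
    · have h2 : P.r1 = 1 + 100 * c0 / q := by rw [hP]; rfl
      rw [h2, hPq]
      have h3 : 100 * C0 / q ≤ 100 * c0 / q := by
        refine div_le_div_of_nonneg_right ?_ hq.le
        linarith
      linarith
    · rw [hPq]
      have h2 : P.v1 ≤ 2 / 5 * Real.exp (-(2 * N' / q)) := hv1s.trans (min_le_right _ _)
      have h3 : Real.exp (2 * N' / q) ≤ 2 / (5 * P.v1) := by
        rw [le_div_iff₀ (by positivity)]
        have h4 : Real.exp (2 * N' / q) * Real.exp (-(2 * N' / q)) = 1 := by rw [← Real.exp_add]; simp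
        have h5 : 0 < Real.exp (2 * N' / q) := Real.exp_pos _
        nlinarith
      have h4 : 2 * N' / q ≤ Real.log (2 / (5 * P.v1)) := by
        rw [← Real.log_exp (2 * N' / q)]
        exact Real.log_le_log (Real.exp_pos _) h3
      calc N' = q / 2 * (2 * N' / q) := by field_simp
        _ ≤ q / 2 * Real.log (2 / (5 * P.v1)) := mul_le_mul_of_nonneg_left h4 (by positivity)
    · intro x hx
      rw [hPq, hPR, hPp]
      have h2 := hs x (by rw [hP1]; rw [hPR] at hx; exact hx)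
      have h3 := W.sr_vd_mem hD hv.cont hv.nonneg hv.le_one x
      have h4 := hunif (v x) (P.op.vd v x) ⟨hv.nonneg x hx, hv.le_one x hx⟩ ⟨h3.1, h3.2⟩ (by
        rw [abs_sub_comm]
        exact lt_of_le_of_lt h2 hdC)
      exact ((le_abs_self _).trans h4.le)
  rw [hPq] at hbf
  exact hbf.mono (by rw [hN']; exact le_max_left _ _)

end UMB.B
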