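import Pool.Agent.Lib.UMB.B.Defs
import Pool.Agent.Lib.UMB.Lin.M1
import Pool.Agent.Lib.UMB.Lin.M2

/-! # UMB.B, chunk Con: the conditions at a contact point -/

set_option autoImplicit false

open Filter Topology Set MeasureTheory
open scoped ContDiff BigOperators
open Pool.Agent.Lib.PenroseSph (E3 Tens pd chr)
open UMB.Lin (Ann cAnn)

namespace UMB.B

theorem con_ev {u : E3 → ℝ} {x : E3} (hu : ContDiffAt ℝ 2 u x) :
    ∀ᶠ y in 𝓝 x, DifferentiableAt ℝ u y := by
  have h1 : ∀ᶠ y in 𝓝 x, ContDiffAt ℝ 2 u y := hu.eventually (by simp)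
  filter_upwards [h1] with y hy
  exact hy.differentiableAt (by simp)

theorem con_pd_sub {u v : E3 → ℝ} {x : E3} (hu : DifferentiableAt ℝ u x)
    (hv : DifferentiableAt ℝ v x) (j : Fin 3) :
    pd j (fun y => u y - v y) x = pd j u x - pd j v x := by
  unfold pd
  have h1 : HasFDerivAt (fun y => u y - v y) (fderiv ℝ u x - fderiv ℝ v x) x :=
    hu.hasFDerivAt.sub hv.hasFDerivAt
  rw [h1.fderiv]
  rfl

theorem con_pd_diff {u : E3 → ℝ} {x : E3} (hu : ContDiffAt ℝ 2 u x) (j : Fin 3) :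
    DifferentiableAt ℝ (pd j u) x := by
  have h1 : ContDiffAt ℝ 1 (fderiv ℝ u) x := hu.fderiv_right (m := 1) (by norm_num)
  have h2 : DifferentiableAt ℝ (fderiv ℝ u) x := h1.differentiableAt (by simp)
  exact h2.clm_apply (differentiableAt_const _)

theorem con_pd2_sub {u v : E3 → ℝ} {x : E3} (hu : ContDiffAt ℝ 2 u x)
    (hv : ContDiffAt ℝ 2 v x) (i j : Fin 3) :
    pd i (pd j (fun y => u y - v y)) x = pd i (pd j u) x - pd i (pd j v) x := by
  have h1 : pd j (fun y => u y - v y) =ᶠ[𝓝 x] (fun y => pd j u y - pd j v y) := by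
    filter_upwards [con_ev hu, con_ev hv] with y h1 h2
    exact con_pd_sub h1 h2 j
  have h2 : pd i (pd j (fun y => u y - v y)) x = pd i (fun y => pd j u y - pd j v y) x := by
    unfold pd
    unfold pd at h1
    rw [h1.fderiv_eq]
  rw [h2]
  exact con_pd_sub (con_pd_diff hu j) (con_pd_diff hv j) i

/-- At an interior maximum point of `u - β` the gradients agree and `A : D²u ≤ A : D²β` for `A ≥ 0`. -/
theorem contact {u β : E3 → ℝ} {x : E3} (hu : ContDiffAt ℝ 2 u x) (hβ : ContDiffAt ℝ 2 β x)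
    (hmax : IsLocalMax (fun y => u y - β y) x) {A : Matrix (Fin 3) (Fin 3) ℝ} (hs : ∀ i j, A i j = A j i)
    (hA : ∀ ζ : Fin 3 → ℝ, 0 ≤ q1 A ζ) :
    (∀ i, D1 u x i = D1 β x i) ∧ tr2 A (D2 u x) ≤ tr2 A (D2 β x) := by
  have hsub : ContDiffAt ℝ 2 (fun y => u y - β y) x := hu.sub hβ
  refine ⟨fun i => ?_, ?_⟩
  · have h1 := UMB.Lin.max_pd hmax i
    rw [con_pd_sub (hu.differentiableAt (by simp)) (hβ.differentiableAt (by simp)) i] at h1
    have h2 : pd i u x = pd i β x := by linarith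
    exact h2
  · have h1 := UMB.Lin.max_hess hsub hmax
    have h2 : ∑ i, ∑ j, A i j * (pd i (pd j (fun y => u y - β y)) x) ≤ 0 :=
      UMB.Lin.trace_nonpos (A := A) (M := fun i j => pd i (pd j (fun y => u y - β y)) x) hs hA h1
    have h3 : ∑ i, ∑ j, A i j * (pd i (pd j (fun y => u y - β y)) x)
        = tr2 A (D2 u x) - tr2 A (D2 β x) := by
      unfold tr2 D2
      simp only [con_pd2_sub hu hβ]
      rw [← Finset.sum_sub_distrib]
      refine Finset.sum_congr rfl fun i _ => ?_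
      rw [← Finset.sum_sub_distrib]
      refine Finset.sum_congr rfl fun j _ => ?_
      ring
    linarith

end UMB.B
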