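import Pool.Agent.Lib.UMB.Par

set_option autoImplicit false

/-!
# UMB.B: barriers (block B), definitions

Linear bounds on the coefficients of the mollified operator, radial quantities, explicit constants.
-/

open Filter Topology Set MeasureTheory
open scoped ContDiff BigOperators
open Pool.Agent.Lib.PenroseSph (E3 Tens pd chr)
open UMB.Lin (Ann cAnn)

namespace UMB.B

/-- Bounds on the coefficients of the operator on the closed annulus: `|G - δ| ≤ C0/|x|`, `|Γ|, |k| ≤ C0/|x|²`,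
ellipticity constant `lam` of `G`. -/
structure LinHyp (D : OpData) (C0 lam : ℝ) : Prop where
  nonneg : 0 ≤ C0
  lam_pos : 0 < lam
  G_sub : ∀ x ∈ cAnn D.R, ∀ i j, |D.G x i j - (1 : Matrix (Fin 3) (Fin 3) ℝ) i j| ≤ C0 / ‖x‖
  Gam_le : ∀ x ∈ cAnn D.R, ∀ i k l, |D.Gam i x k l| ≤ C0 / ‖x‖ ^ 2
  k_le : ∀ x ∈ cAnn D.R, ∀ i j, |D.k x i j| ≤ C0 / ‖x‖ ^ 2
  ell : ∀ x ∈ cAnn D.R, ∀ u : Fin 3 → ℝ, lam * vsq u ≤ q1 (D.G x) u

/-- The unit radial vector `x/|x|`. -/
noncomputable def xh (x : E3) : Fin 3 → ℝ := fun i => x i / ‖x‖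

/-- `A(x/|x|, x/|x|)`. -/
noncomputable def X0 (A : Matrix (Fin 3) (Fin 3) ℝ) (x : E3) : ℝ := q1 A (xh x)

/-- The flat trace. -/
def tr0 (A : Matrix (Fin 3) (Fin 3) ℝ) : ℝ := ∑ i, A i i

/-- The radial component of the drift. -/
noncomputable def bx (b : Fin 3 → ℝ) (x : E3) : ℝ := ∑ i, b i * xh x i

/-- Constant in the bound of the drift, `|b . x/|x|| ≤ Bd C0 * C0/|x|²`. -/
def Bd (C0 : ℝ) : ℝ := 50 * (1 + C0) ^ 2

/-- Slope of the inner barrier. -/
noncomputable def K1 (C0 lam q : ℝ) : ℝ := 2 + (3 + 3 * C0 + Bd C0 * C0) / (q * lam)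

/-- Constant of the outer barrier. -/
noncomputable def C2 (C0 q : ℝ) : ℝ := 32 * C0 / q + (3 / 2) * Bd C0 * C0

/-- Radius beyond which the outer barrier is a strict supersolution. -/
noncomputable def r2 (C0 q : ℝ) : ℝ := (4 * C2 C0 q / q) ^ 2 + 1

/-- The additive constant of the outer barrier. -/
noncomputable def cc (C0 lam q : ℝ) : ℝ := K1 C0 lam q * r2 C0 q + 2

/-- The inner barrier `K1 (r - 1)`. -/
noncomputable def be1 (C0 lam q r : ℝ) : ℝ := K1 C0 lam q * (r - 1)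

/-- The outer barrier `log r + c - r^{-1/2}`. -/
noncomputable def be2 (C0 lam q r : ℝ) : ℝ := Real.log r + cc C0 lam q - (Real.sqrt r)⁻¹

/-- The least outer radius. -/
noncomputable def Rm (C0 lam q : ℝ) : ℝ := 4 * r2 C0 q + 16

end UMB.B
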