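import Pool.Agent.Lib.UMB.B.Defs
import Pool.Agent.Lib.UMB.W.E0

/-! # UMB.B, chunk Ff: the function `F_κ(z) = ∫_z^1 (K(s) + κ)⁻¹ ds` -/

set_option autoImplicit false

open Filter Topology Set MeasureTheory
open scoped ContDiff BigOperators

namespace UMB.B

variable {p0 : ℝ} {p : ℝ → ℝ}

theorem ff_mono {h h' : ℝ → ℝ} (hd : ∀ z, 0 ≤ z → z ≤ 1 → HasDerivAt h (h' z) z)
    (hn : ∀ z, 0 ≤ z → z ≤ 1 → h' z ≤ 0) {a b : ℝ} (ha : 0 ≤ a) (hab : a ≤ b) (hb : b ≤ 1) : h b ≤ h a := by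
  have h1 : AntitoneOn h (Icc 0 1) := by
    refine antitoneOn_of_deriv_nonpos (convex_Icc 0 1)
      (fun z hz => (hd z hz.1 hz.2).continuousAt.continuousWithinAt) ?_ ?_
    · intro z hz
      rw [interior_Icc] at hz
      exact (hd z hz.1.le hz.2.le).differentiableAt.differentiableWithinAt
    · intro z hz
      rw [interior_Icc] at hz
      rw [(hd z hz.1.le hz.2.le).deriv]
      exact hn z hz.1.le hz.2.le
  exact h1 ⟨ha, hab.trans hb⟩ ⟨ha.trans hab, hb⟩ hab

theorem ff_pos (hp : W.Expo p0 p) {κ : ℝ} (hκ : 0 < κ) {z : ℝ} (hz : 0 ≤ z) : 0 < W.KK p z + κ := by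
  have := (W.KK_bd hp hz).1
  linarith

/-- `F_κ` is antitone in `κ`. -/
theorem ff_anti_kap (hp : W.Expo p0 p) {k κ : ℝ} (hk : 0 < k) (hkκ : k ≤ κ) {z : ℝ} (hz : 0 ≤ z) (hz1 : z ≤ 1) :
    W.FF p κ z ≤ W.FF p k z := by
  have hκ : 0 < κ := lt_of_lt_of_le hk hkκ
  have h1 := ff_mono (h := fun z => W.FF p k z - W.FF p κ z)
    (h' := fun z => - (W.KK p z + k)⁻¹ - (- (W.KK p z + κ)⁻¹))
    (fun z hz _ => (W.FF_deriv hp hk hz).sub (W.FF_deriv hp hκ hz))
    (fun z hz _ => by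
      have h2 := ff_pos hp hk hz
      have h3 : (W.KK p z + κ)⁻¹ ≤ (W.KK p z + k)⁻¹ := inv_anti₀ h2 (by linarith)
      linarith) hz hz1 le_rfl
  simp only [W.FF_one] at h1
  linarith

/-- `F_κ(0) - F_κ(z) ≤ z/κ`. -/
theorem ff_lip (hp : W.Expo p0 p) {κ : ℝ} (hκ : 0 < κ) {z : ℝ} (hz : 0 ≤ z) (hz1 : z ≤ 1) :
    W.FF p κ 0 - W.FF p κ z ≤ z / κ := by
  have h1 := ff_mono (h := fun z => - (W.FF p κ z) - κ⁻¹ * z)
    (h' := fun z => - (- (W.KK p z + κ)⁻¹) - κ⁻¹ * 1)
    (fun z hz _ => (W.FF_deriv hp hκ hz).neg.sub ((hasDerivAt_id z).const_mul κ⁻¹))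
    (fun z hz _ => by
      have h2 := (W.KK_bd hp hz).1
      have h3 : (W.KK p z + κ)⁻¹ ≤ κ⁻¹ := inv_anti₀ hκ (by linarith)
      linarith) le_rfl hz hz1
  have h2 : z / κ = κ⁻¹ * z := by rw [div_eq_mul_inv]; ring
  rw [h2]
  simp only [mul_zero] at h1
  linarith

/-- Lower bound: `F_κ(z) ≥ c⁻¹ log((c + κ)/(c z + κ))`, `c = 2/(p0 - 1)`. -/
theorem ff_lower (hp : W.Expo p0 p) {κ : ℝ} (hκ : 0 < κ) {z : ℝ} (hz : 0 ≤ z) (hz1 : z ≤ 1) :
    (2 / (p0 - 1))⁻¹ * Real.log ((2 / (p0 - 1) + κ) / (2 / (p0 - 1) * z + κ)) ≤ W.FF p κ z := by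
  have hc : 0 < 2 / (p0 - 1) := by
    have := hp.one_lt
    have : 0 < p0 - 1 := by linarith
    positivity
  set c := 2 / (p0 - 1) with hcdef
  have h1 := ff_mono (h := fun z => W.FF p κ z + c⁻¹ * Real.log (c * z + κ))
    (h' := fun z => - (W.KK p z + κ)⁻¹ + c⁻¹ * ((c * 1) / (c * z + κ)))
    (fun z hz _ => by
      have h2 : 0 < c * z + κ := by positivity
      have h3 : HasDerivAt (fun z : ℝ => c * z + κ) (c * 1) z := ((hasDerivAt_id z).const_mul c).add_const κ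
      exact (W.FF_deriv hp hκ hz).add ((h3.log h2.ne').const_mul c⁻¹))
    (fun z hz _ => by
      have h2 := (W.KK_bd hp hz).2
      have h3 := ff_pos hp hκ hz
      have h4 : (c * z + κ)⁻¹ ≤ (W.KK p z + κ)⁻¹ := inv_anti₀ h3 (by linarith)
      have h5 : c⁻¹ * ((c * 1) / (c * z + κ)) = (c * z + κ)⁻¹ := by
        rw [div_eq_mul_inv]; field_simp
      rw [h5]
      linarith) hz hz1 le_rfl
  simp only [W.FF_one, mul_one, zero_add] at h1
  have h2 : 0 < c * z + κ := by positivity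
  have h3 : 0 < c + κ := by positivity
  rw [Real.log_div h3.ne' h2.ne', mul_sub]
  linarith

/-- Upper bound: `F_κ(z) ≤ log((1 + κ)/(z + κ))`. -/
theorem ff_upper (hp : W.Expo p0 p) {κ : ℝ} (hκ : 0 < κ) {a b : ℝ} (ha : 0 ≤ a) (hab : a ≤ b) (hb : b ≤ 1) :
    W.FF p κ a - W.FF p κ b ≤ Real.log ((b + κ) / (a + κ)) := by
  have h1 := ff_mono (h := fun z => - (W.FF p κ z) - Real.log (z + κ))
    (h' := fun z => - (- (W.KK p z + κ)⁻¹) - 1 / (z + κ))
    (fun z hz _ => by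
      have h2 : 0 < z + κ := by positivity
      have h3 : HasDerivAt (fun z : ℝ => z + κ) 1 z := (hasDerivAt_id z).add_const κ
      exact (W.FF_deriv hp hκ hz).neg.sub (h3.log h2.ne'))
    (fun z hz _ => by
      have h2 := (W.KK_bd hp hz).1
      have h3 : (W.KK p z + κ)⁻¹ ≤ (z + κ)⁻¹ := inv_anti₀ (by positivity) (by linarith)
      rw [one_div]
      linarith) ha hab hb
  have h2 : 0 < a + κ := by positivity
  have h3 : 0 < b + κ := by linarith
  rw [Real.log_div h3.ne' h2.ne']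
  linarith

/-- If `p = 2` on `[0, z0]`, then `F_κ(a) - F_κ(b) = log((b + κ)/(a + κ))` for `0 ≤ a ≤ b ≤ z0`. -/
theorem ff_exact (hp : W.Expo p0 p) {κ : ℝ} (hκ : 0 < κ) {z0 : ℝ} (hz0 : ∀ z, 0 ≤ z → z ≤ z0 → p z = 2) {a b : ℝ}
    (ha : 0 ≤ a) (hab : a ≤ b) (hb : b ≤ z0) :
    W.FF p κ a - W.FF p κ b = Real.log ((b + κ) / (a + κ)) := by
  have hK : ∀ z, 0 ≤ z → z ≤ z0 → W.KK p z = z := by
    intro z hz hz1
    have h1 : ∫ t in (0 : ℝ)..z, W.kt p t = ∫ _t in (0 : ℝ)..z, (1 : ℝ) := by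
      refine intervalIntegral.integral_congr fun t ht => ?_
      rw [uIcc_of_le hz] at ht
      unfold W.kt
      rw [hz0 t ht.1 (ht.2.trans hz1)]
      norm_num
    unfold W.KK
    rw [h1]
    simp
  have hd : ∀ z ∈ Icc a b, HasDerivAt (fun z => W.FF p κ z + Real.log (z + κ)) 0 z := by
    intro z hz
    have hz' : 0 ≤ z := ha.trans hz.1
    have h2 : 0 < z + κ := by positivity
    have h3 : HasDerivAt (fun z : ℝ => z + κ) 1 z := (hasDerivAt_id z).add_const κ
    have h4 := (W.FF_deriv hp hκ hz').add (h3.log h2.ne')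
    have h5 : - (W.KK p z + κ)⁻¹ + 1 / (z + κ) = 0 := by
      rw [hK z hz' (hz.2.trans hb), one_div]
      ring
    rw [h5] at h4
    exact h4
  have h1 : (fun z => W.FF p κ z + Real.log (z + κ)) b = (fun z => W.FF p κ z + Real.log (z + κ)) a := by
    refine constant_of_has_deriv_right_zero
      (fun z hz => (hd z hz).continuousAt.continuousWithinAt)
      (fun z hz => (hd z ⟨hz.1, hz.2.le⟩).hasDerivWithinAt) b ⟨hab, le_rfl⟩
  have h2 : 0 < a + κ := by positivity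
  have h3 : 0 < b + κ := by linarith
  rw [Real.log_div h3.ne' h2.ne']
  simp only at h1
  linarith

/-- For every `B > 0` there is `k > 0` with `F_k(0) = B`. -/
theorem ff_ivt (hp : W.Expo p0 p) {B : ℝ} (hB : 0 < B) : ∃ k : ℝ, 0 < k ∧ W.FF p k 0 = B := by
  have hc : 0 < 2 / (p0 - 1) := by
    have := hp.one_lt
    have : 0 < p0 - 1 := by linarith
    positivity
  set c := 2 / (p0 - 1) with hcdef
  set a := c * Real.exp (-(c * B)) with ha
  have ha0 : 0 < a := by positivity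
  have hab : a ≤ B⁻¹ := by
    rw [ha, Real.exp_neg, ← div_eq_mul_inv, div_le_iff₀ (Real.exp_pos _), ← div_eq_inv_mul, le_div_iff₀ hB]
    have := Real.add_one_le_exp (c * B)
    linarith
  -- continuity
  have hcont : ContinuousOn (fun k => W.FF p k 0) (Icc a B⁻¹) := by
    have h1 : Continuous fun k : ℝ => ∫ t in (0 : ℝ)..1, (max (W.KK p t) 0 + max k a)⁻¹ := by
      refine intervalIntegral.continuous_parametric_intervalIntegral_of_continuous' ?_ 0 1
      refine Continuous.inv₀ ?_ ?_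
      · have hK : Continuous (W.KK p) := (W.KK_smooth hp).continuous
        fun_prop
      · rintro ⟨k, t⟩
        have h2 : 0 ≤ max (W.KK p t) 0 := le_max_right _ _
        have h3 : a ≤ max k a := le_max_right _ _
        have : 0 < max (W.KK p t) 0 + max k a := by linarith
        exact this.ne'
    refine h1.continuousOn.congr fun k hk => ?_
    unfold W.FF
    refine intervalIntegral.integral_congr fun t ht => ?_
    rw [uIcc_of_le zero_le_one] at ht
    have h2 := (W.KK_bd hp ht.1).1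
    have h3 : 0 ≤ W.KK p t := ht.1.trans h2
    simp only [max_eq_left h3, max_eq_left hk.1]
  have h1 : B ≤ W.FF p a 0 := by
    have h2 := ff_lower hp ha0 (z := 0) le_rfl zero_le_one
    refine le_trans ?_ h2
    rw [← hcdef]
    have h3 : c * 0 + a = a := by ring
    rw [h3]
    have h4 : Real.exp (c * B) ≤ (c + a) / a := by
      rw [le_div_iff₀ ha0, ha]
      have h5 : Real.exp (c * B) * (c * Real.exp (-(c * B))) = c := by
        rw [Real.exp_neg]
        field_simp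
      rw [h5]
      have : 0 < c * Real.exp (-(c * B)) := by positivity
      linarith
    have h5 : c * B ≤ Real.log ((c + a) / a) := by
      rw [← Real.log_exp (c * B)]
      exact Real.log_le_log (Real.exp_pos _) h4
    calc B = c⁻¹ * (c * B) := by field_simp
      _ ≤ c⁻¹ * Real.log ((c + a) / a) := mul_le_mul_of_nonneg_left h5 (by positivity)
  have h2 : W.FF p B⁻¹ 0 ≤ B := by
    have h3 := (W.FF_bd hp (inv_pos.mpr hB) (z := 0) le_rfl zero_le_one).2
    simpa using h3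
  obtain ⟨k, hk, hk2⟩ := intermediate_value_Icc' hab hcont ⟨h2, h1⟩
  exact ⟨k, lt_of_lt_of_le ha0 hk.1, hk2⟩

end UMB.B
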