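import Pool.Agent.Lib.UMB.B.Up
import Pool.Agent.Lib.UMB.Asm.Br
import Pool.Agent.Lib.UMB.W.SolReg

/-! # UMB.B, chunk Fn: theorems B2 and B3 in the language of `Par` -/

set_option autoImplicit false

open Filter Topology Set MeasureTheory
open scoped ContDiff BigOperators
open Pool.Agent.Lib.PenroseSph (E3 Tens pd chr)
open UMB.Lin (Ann cAnn)

namespace UMB.B

variable {P : Par} {C0 lam : ℝ} {v : E3 → ℝ} {x : E3}

/-- FZ0: the spherical means in the flat zone. -/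
def Fz (P : Par) (v : E3 → ℝ) : Prop :=
  ∀ r : ℝ, 2 * P.R1 ≤ r → r ≤ P.R → Par.mean v r = P.Cv v * (1 / r - 1 / P.R)

theorem fn_up {R : ℝ} (hv : ContinuousOn v (cAnn R)) {r : ℝ} (h1 : 1 ≤ r) (h2 : r ≤ R) {c : ℝ}
    (hc : ∀ x : E3, ‖x‖ = r → v x ≤ c) : Par.mean v r ≤ c := by
  have hm : ∀ m : Metric.sphere (0 : E3) 1, ‖r • (m : E3)‖ = r := by
    intro m
    rw [norm_smul, Real.norm_of_nonneg (by linarith)]
    simp
  have hcn : Continuous fun n : Metric.sphere (0 : E3) 1 => v (r • (n : E3)) := by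
    have h3 : Continuous fun n : Metric.sphere (0 : E3) 1 => r • (n : E3) := by fun_prop
    exact hv.comp_continuous h3 fun m => ⟨by rw [hm m]; exact h1, by rw [hm m]; exact h2⟩
  have h5 : ∫ n : Metric.sphere (0 : E3) 1, v (r • (n : E3)) ∂(volume : Measure E3).toSphere
      ≤ ∫ n : Metric.sphere (0 : E3) 1, c ∂(volume : Measure E3).toSphere :=
    integral_mono (Pool.Agent.Lib.PenroseSph.integrable_S2 hcn) (integrable_const c) fun n => hc _ (hm n)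
  rw [integral_const, Pool.Agent.Lib.PenroseSph.sm_univ] at h5
  unfold Par.mean
  have hpi := Real.pi_pos
  rw [one_div, inv_mul_eq_div, div_le_iff₀ (by positivity)]
  rw [smul_eq_mul] at h5
  linarith

theorem fn_R (hP : P.Ok) : 0 < P.R1 ∧ 1 ≤ 2 * P.R1 ∧ 2 * P.R1 < P.R ∧ 0 < P.R := by
  have h1 := hP.r1_ge
  have h2 := hP.R1_ge
  have h3 := hP.R_ge
  refine ⟨?_, ?_, ?_, ?_⟩ <;> linarith

theorem fn_kap (hP : P.Ok) (hv : W.Sol P.op v) (hF : Fz P v) {k : ℝ} (hk : 0 < k)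
    (hlow : ∀ x ∈ cAnn P.op.R, k * (1 - ‖x‖ / P.op.R) ≤ v x) : k ≤ P.kap v := by
  obtain ⟨h1, h2, h3, h4⟩ := fn_R hP
  have hop : P.op.R = P.R := rfl
  have key : ∀ r, 2 * P.R1 ≤ r → r < P.R → k * r ≤ P.Cv v := by
    intro r hr1 hr2
    have hr0 : 0 < r := by linarith
    have h5 : k * (1 - r / P.R) ≤ Par.mean v r := by
      refine up_int (D := P.op) hv.cont (by linarith) (by rw [hop]; exact hr2.le) fun x hx => ?_
      have h6 := hlow x ⟨by rw [hx]; linarith, by rw [hx, hop]; exact hr2.le⟩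
      rw [hx, hop] at h6
      exact h6
    rw [hF r hr1 hr2.le] at h5
    have h6 : k * (1 - r / P.R) = k * r * (1 / r - 1 / P.R) := by field_simp
    rw [h6] at h5
    have h7 : 0 < 1 / r - 1 / P.R := by
      have := one_div_lt_one_div_of_lt hr0 hr2
      linarith
    exact le_of_mul_le_mul_right h5 h7
  unfold Par.kap
  rw [le_div_iff₀ h4]
  by_contra hcon
  push Not at hcon
  have h5 : P.Cv v / k < P.R := by rw [div_lt_iff₀ hk]; linarith
  set r := max (2 * P.R1) ((P.Cv v / k + P.R) / 2) with hr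
  have h6 : r < P.R := max_lt h3 (by linarith)
  have h7 := key r (le_max_left _ _) h6
  have h8 : (P.Cv v / k + P.R) / 2 ≤ r := le_max_right _ _
  have h9 : P.Cv v / k < r := by linarith
  rw [div_lt_iff₀ hk] at h9
  linarith

/-- THEOREM B2: `0 < κ` and `θ ≤ log r + c - r^{-1/2}`, `T ≤ log R + c`. -/
theorem th_le (hP : P.Ok) (hD : P.op.Ok) (hL : LinHyp P.op C0 lam) (hv : W.Sol P.op v) (hR : Rm C0 lam P.q ≤ P.R)
    (hF : Fz P v) (hsm : ∀ x ∈ cAnn P.R, P.p (v x) - P.p (P.op.vd v x) ≤ P.q ^ 2 / (12 * Real.sqrt P.R)) :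
    0 < P.kap v ∧ (∀ x ∈ cAnn P.R, P.th v x ≤ be2 C0 lam P.q ‖x‖) ∧ P.T v ≤ be2 C0 lam P.q P.R := by
  obtain ⟨h1, h2, h3, h4⟩ := fn_R hP
  have hq : P.op.p0 = 1 + P.q := rfl
  have hexp := th_expo hD
  obtain ⟨k, hk, hkF⟩ := ff_ivt hexp (up_be2_pos (lam := lam) (q := P.q) hL hP.q_pos (r := P.R) (by linarith))
  have hcmp := up_cmp hD hL hv hq hP.q_lt.le hR hk hkF.le hsm
  have hlow := up_low hD hv hk hkF hcmp
  have hkk := fn_kap hP hv hF hk hlow
  refine ⟨lt_of_lt_of_le hk hkk, fun x hx => ?_, ?_⟩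
  · exact (ff_anti_kap hexp hk hkk (hv.nonneg x hx) (hv.le_one x hx)).trans (hcmp x hx)
  · unfold Par.T Par.F
    exact (ff_anti_kap hexp hk hkk le_rfl zero_le_one).trans hkF.le

theorem th_le_log (hP : P.Ok) (hD : P.op.Ok) (hL : LinHyp P.op C0 lam) (hv : W.Sol P.op v) (hR : Rm C0 lam P.q ≤ P.R)
    (hF : Fz P v) (hsm : ∀ x ∈ cAnn P.R, P.p (v x) - P.p (P.op.vd v x) ≤ P.q ^ 2 / (12 * Real.sqrt P.R)) :
    (∀ x ∈ cAnn P.R, P.th v x ≤ Real.log ‖x‖ + cc C0 lam P.q) ∧ P.T v ≤ Real.log P.R + cc C0 lam P.q := by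
  obtain ⟨-, h2, h3⟩ := th_le hP hD hL hv hR hF hsm
  refine ⟨fun x hx => (h2 x hx).trans ?_, h3.trans ?_⟩
  · unfold be2
    have : 0 ≤ (Real.sqrt ‖x‖)⁻¹ := by positivity
    linarith
  · unfold be2
    have : 0 ≤ (Real.sqrt P.R)⁻¹ := by positivity
    linarith

/-- `C ≥ e^{-c}`. -/
theorem CC_ge (hP : P.Ok) (hD : P.op.Ok) (hL : LinHyp P.op C0 lam) (hv : W.Sol P.op v) (hR : Rm C0 lam P.q ≤ P.R)
    (hF : Fz P v) (hsm : ∀ x ∈ cAnn P.R, P.p (v x) - P.p (P.op.vd v x) ≤ P.q ^ 2 / (12 * Real.sqrt P.R)) :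
    Real.exp (-cc C0 lam P.q) ≤ P.CC v := by
  obtain ⟨h1, h2, h3, h4⟩ := fn_R hP
  have h5 := (th_le_log hP hD hL hv hR hF hsm).2
  unfold Par.CC
  have h6 : Real.exp (-(Real.log P.R + cc C0 lam P.q)) ≤ Real.exp (-P.T v) := Real.exp_le_exp.mpr (by linarith)
  have h7 : Real.exp (-(Real.log P.R + cc C0 lam P.q)) = P.R⁻¹ * Real.exp (-cc C0 lam P.q) := by
    rw [neg_add, Real.exp_add, Real.exp_neg (Real.log P.R), Real.exp_log h4]
  rw [h7] at h6
  calc Real.exp (-cc C0 lam P.q) = P.R * (P.R⁻¹ * Real.exp (-cc C0 lam P.q)) := by field_simp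
    _ ≤ P.R * Real.exp (-P.T v) := mul_le_mul_of_nonneg_left h6 h4.le

/-- THEOREM B1 for `P`. -/
theorem v_le_par (hP : P.Ok) (hD : P.op.Ok) (hL : LinHyp P.op C0 lam) (hv : W.Sol P.op v)
    (hr1 : 1 + 100 * C0 / P.q ≤ P.r1) : ∀ x ∈ cAnn P.R, v x ≤ (P.r1 / ‖x‖) ^ (P.q / 2) :=
  v_le (D := P.op) hD hL hv (q := P.q) rfl hP.q_lt.le hr1

/-- `v ≤ v1` for `|x| ≥ R1/2`. -/
theorem v_le_v1 (hP : P.Ok) (hD : P.op.Ok) (hL : LinHyp P.op C0 lam) (hv : W.Sol P.op v)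
    (hr1 : 1 + 100 * C0 / P.q ≤ P.r1) {x : E3} (hx : x ∈ cAnn P.R) (h : P.R1 / 2 ≤ ‖x‖) : v x ≤ P.v1 := by
  have h1 := fn_R hP
  have hr : 0 < ‖x‖ := lt_of_lt_of_le one_pos hx.1
  have h2 := v_le_par hP hD hL hv hr1 x hx
  have h0 := hP.r1_ge
  have hq := hP.q_pos
  unfold Par.v1
  refine le_min (hv.le_one x hx) (h2.trans ?_)
  refine Real.rpow_le_rpow (by positivity) ?_ (by positivity)
  rw [div_le_div_iff₀ hr h1.1]
  nlinarith

/-- `v_d ≤ v1` for `|x| ≥ R1/2 + d`. -/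
theorem vd_le_v1 (hP : P.Ok) (hD : P.op.Ok) (hL : LinHyp P.op C0 lam) (hv : W.Sol P.op v)
    (hr1 : 1 + 100 * C0 / P.q ≤ P.r1) {x : E3} (h : P.R1 / 2 + P.d ≤ ‖x‖) : P.op.vd v x ≤ P.v1 := by
  have h1 := fn_R hP
  have hm := W.mol_etad hD
  have hv1 : 0 < P.v1 := hP.v1_pos
  have hR12 : 1 ≤ P.R1 / 2 := by linarith [hP.r1_ge, hP.R1_ge]
  have hi : Integrable P.op.etad := hm.smooth.continuous.integrable_of_hasCompactSupport (W.sr_etad_supp hD)
  have hi' : Integrable fun y => P.op.etad (x - y) := hi.comp_sub_left x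
  have e1 : ∫ y, P.op.etad (x - y) = 1 := by
    rw [integral_sub_left_eq_self P.op.etad volume x]
    exact hm.int
  have e2 : ∫ y, P.v1 * P.op.etad (x - y) = P.v1 := by
    rw [integral_const_mul, e1, mul_one]
  unfold OpData.vd
  rw [← e2]
  have hpt : ∀ y, ext P.op.R v y * P.op.etad (x - y) ≤ P.v1 * P.op.etad (x - y) := by
    intro y
    have h0 : 0 ≤ P.op.etad (x - y) := hm.nonneg _
    rcases le_or_gt P.op.d ‖x - y‖ with hle | hlt
    · rw [hm.supp _ hle]; simp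
    · have h2 : P.R1 / 2 ≤ ‖y‖ := by
        have h3 : ‖x‖ ≤ ‖x - y‖ + ‖y‖ := by
          have := norm_add_le (x - y) y
          simpa using this
        have h4 : P.op.d = P.d := rfl
        rw [h4] at hlt
        linarith
      refine mul_le_mul_of_nonneg_right ?_ h0
      unfold ext
      have h3 : ¬ ‖y‖ < 1 := by linarith
      rw [if_neg h3]
      by_cases h4 : ‖y‖ ≤ P.op.R
      · rw [if_pos h4]
        exact v_le_v1 hP hD hL hv hr1 ⟨by linarith, h4⟩ h2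
      · rw [if_neg h4]
        exact hv1.le
  refine integral_mono_of_nonneg ?_ (hi'.const_mul _) (Eventually.of_forall hpt)
  refine Eventually.of_forall fun y => mul_nonneg ?_ (hm.nonneg _)
  unfold ext
  by_cases h3 : ‖y‖ < 1
  · rw [if_pos h3]; norm_num
  · rw [if_neg h3]
    by_cases h4 : ‖y‖ ≤ P.op.R
    · rw [if_pos h4]
      exact hv.nonneg y ⟨not_lt.mp h3, h4⟩
    · rw [if_neg h4]

/-- `C_v ≤ 4 R1 v1`, `κ ≤ v1`. -/
theorem Cv_le (hP : P.Ok) (hD : P.op.Ok) (hL : LinHyp P.op C0 lam) (hv : W.Sol P.op v)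
    (hr1 : 1 + 100 * C0 / P.q ≤ P.r1) : P.Cv v ≤ 4 * P.R1 * P.v1 ∧ P.kap v ≤ 4 * P.R1 * P.v1 / P.R ∧ P.kap v ≤ P.v1 := by
  obtain ⟨h1, h2, h3, h4⟩ := fn_R hP
  have hv1 : 0 < P.v1 := hP.v1_pos
  have hR := hP.R_ge
  have h5 : Par.mean v (2 * P.R1) ≤ P.v1 := by
    refine fn_up (R := P.R) hv.cont h2 h3.le fun x hx => ?_
    refine v_le_v1 hP hD hL hv hr1 ⟨by rw [hx]; exact h2, by rw [hx]; exact h3.le⟩ (by rw [hx]; linarith)
  have h6 : 3 / (8 * P.R1) ≤ 1 / (2 * P.R1) - 1 / P.R := by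
    have h7 : 1 / P.R ≤ 1 / (8 * P.R1) := one_div_le_one_div_of_le (by positivity) hR
    have h8 : 3 / (8 * P.R1) = 1 / (2 * P.R1) - 1 / (8 * P.R1) := by field_simp; norm_num
    linarith
  have h7 : 0 < 1 / (2 * P.R1) - 1 / P.R := lt_of_lt_of_le (by positivity) h6
  have h8 : P.Cv v ≤ 4 * P.R1 * P.v1 := by
    unfold Par.Cv
    rw [div_le_iff₀ h7]
    have h9 : 4 * P.R1 * P.v1 * (3 / (8 * P.R1)) = 3 / 2 * P.v1 := by field_simp; norm_num
    have h10 : 4 * P.R1 * P.v1 * (3 / (8 * P.R1)) ≤ 4 * P.R1 * P.v1 * (1 / (2 * P.R1) - 1 / P.R) :=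
      mul_le_mul_of_nonneg_left h6 (by positivity)
    linarith
  have h9 : P.kap v ≤ 4 * P.R1 * P.v1 / P.R := by
    unfold Par.kap
    exact div_le_div_of_nonneg_right h8 h4.le
  refine ⟨h8, h9, h9.trans ?_⟩
  rw [div_le_iff₀ h4]
  nlinarith

/-- The beginning of the transition window. -/
theorem T1_ge (hP : P.Ok) (hκ : 0 < P.kap v) (hκ1 : P.kap v ≤ P.v1) (h2 : 2 * P.v1 ≤ 1) :
    P.q / 2 * Real.log (2 / (5 * P.v1)) ≤ P.T1 v := by
  have hq := hP.q_pos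
  have hq1 := hP.q_lt
  have hv1 : 0 < P.v1 := hP.v1_pos
  have h3 := ff_lower hP.expo hκ (z := 2 * P.v1) (by positivity) h2
  have h4 : (1 : ℝ) + P.q - 1 = P.q := by ring
  rw [h4, inv_div] at h3
  unfold Par.T1 Par.F
  refine le_trans ?_ h3
  refine mul_le_mul_of_nonneg_left ?_ (by positivity)
  refine Real.log_le_log (by positivity) ?_
  rw [div_le_div_iff₀ (by positivity) (by positivity)]
  have h5 : 2 * (2 / P.q * (2 * P.v1) + P.kap v) ≤ 2 / P.q * (5 * P.v1) := by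
    have h6 : 2 / P.q * (5 * P.v1) - 2 * (2 / P.q * (2 * P.v1)) = 2 * P.v1 / P.q := by field_simp; ring
    have h7 : 2 * P.v1 ≤ 2 * P.v1 / P.q := by
      rw [le_div_iff₀ hq]
      nlinarith
    linarith
  have h8 : 0 ≤ P.kap v * (5 * P.v1) := by positivity
  linarith

/-- `T2 - T1 ≤ log 2`. -/
theorem T2_le (hP : P.Ok) (hκ : 0 < P.kap v) (h2 : 2 * P.v1 ≤ 1) : P.T2 v - P.T1 v ≤ Real.log 2 := by
  have hv1 : 0 < P.v1 := hP.v1_pos
  have h3 := ff_upper hP.expo hκ (a := P.v1) (b := 2 * P.v1) hv1.le (by linarith) h2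
  unfold Par.T1 Par.T2 Par.F
  refine h3.trans (Real.log_le_log (by positivity) ?_)
  rw [div_le_iff₀ (by positivity)]
  linarith

theorem T1_le_T (hP : P.Ok) (hκ : 0 < P.kap v) : P.T1 v ≤ P.T v := by
  have hv1 : 0 < P.v1 := hP.v1_pos
  unfold Par.T1 Par.T Par.F
  exact (W.FF_anti hP.expo hκ).antitoneOn (mem_Ici.mpr le_rfl) (mem_Ici.mpr (by positivity)) (by positivity)

/-- VOLUME: `θ < q²/8` implies `|x| ≤ e² r1`. -/
theorem vol_sub (hP : P.Ok) (hD : P.op.Ok) (hL : LinHyp P.op C0 lam) (hv : W.Sol P.op v)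
    (hr1 : 1 + 100 * C0 / P.q ≤ P.r1) (hκ : 0 < P.kap v) {x : E3} (hx : x ∈ cAnn P.R)
    (h : P.th v x < P.q ^ 2 / 8) : ‖x‖ ≤ Real.exp 2 * P.r1 := by
  by_contra hcon
  push Not at hcon
  have hq := hP.q_pos
  have hq1 := hP.q_lt
  have hr0 := hP.r1_ge
  have hr : 0 < ‖x‖ := lt_of_lt_of_le one_pos hx.1
  have hκ1 := (Cv_le hP hD hL hv hr1).2.2
  have hv11 : P.v1 ≤ 1 := by unfold Par.v1; exact min_le_left _ _
  have h1 : v x ≤ Real.exp (-P.q) := by
    refine (v_le_par hP hD hL hv hr1 x hx).trans ?_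
    have h2 : P.r1 / ‖x‖ ≤ Real.exp (-2) := by
      rw [div_le_iff₀ hr, Real.exp_neg, ← div_eq_inv_mul, le_div_iff₀ (Real.exp_pos _)]
      linarith
    have h3 : (P.r1 / ‖x‖) ^ (P.q / 2) ≤ (Real.exp (-2)) ^ (P.q / 2) :=
      Real.rpow_le_rpow (by positivity) h2 (by positivity)
    refine h3.trans (le_of_eq ?_)
    rw [← Real.exp_mul]
    congr 1
    ring
  have he0 : 0 < Real.exp (-P.q) := Real.exp_pos _
  have he1 : Real.exp (-P.q) ≤ 1 := Real.exp_le_one_iff.mpr (by linarith)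
  have h2 : W.FF P.p (P.kap v) (Real.exp (-P.q)) ≤ P.th v x :=
    (W.FF_anti hP.expo hκ).antitoneOn (mem_Ici.mpr (hv.nonneg x hx)) (mem_Ici.mpr he0.le) h1
  have h3 := ff_lower hP.expo hκ he0.le he1
  have h4 : (1 : ℝ) + P.q - 1 = P.q := by ring
  rw [h4, inv_div] at h3
  -- the logarithm is at least `q/4`
  have h5 : P.q / 4 ≤ Real.log ((2 / P.q + P.kap v) / (2 / P.q * Real.exp (-P.q) + P.kap v)) := by
    rw [← Real.log_exp (P.q / 4)]
    refine Real.log_le_log (Real.exp_pos _) ?_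
    rw [le_div_iff₀ (by positivity)]
    have e1 : Real.exp (P.q / 4) * Real.exp (-P.q) = Real.exp (-(3 * P.q / 4)) := by
      rw [← Real.exp_add]
      congr 1
      ring
    have e2 : Real.exp (-(3 * P.q / 4)) ≤ 1 - 3 * P.q / 7 := by
      have e3 := Real.add_one_le_exp (3 * P.q / 4)
      rw [Real.exp_neg, inv_le_comm₀ (Real.exp_pos _) (by linarith)]
      refine le_trans ?_ e3
      rw [inv_le_comm₀ (by linarith) (by positivity), inv_eq_one_div, div_le_iff₀ (by positivity)]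
      nlinarith
    have e3 : Real.exp (P.q / 4) ≤ 1 + P.q / 3 := by
      have e4 := Real.add_one_le_exp (-(P.q / 4))
      have e5 : Real.exp (P.q / 4) = (Real.exp (-(P.q / 4)))⁻¹ := by rw [Real.exp_neg, inv_inv]
      rw [e5, inv_le_comm₀ (Real.exp_pos _) (by positivity)]
      refine le_trans ?_ e4
      rw [inv_eq_one_div, div_le_iff₀ (by positivity)]
      nlinarith
    have e4 : 2 ≤ 2 / P.q := by
      rw [le_div_iff₀ hq]
      linarith
    have e5 : Real.exp (P.q / 4) * (2 / P.q * Real.exp (-P.q) + P.kap v)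
        = 2 / P.q * Real.exp (-(3 * P.q / 4)) + Real.exp (P.q / 4) * P.kap v := by
      rw [← e1]; ring
    rw [e5]
    have e6 : 2 / P.q * Real.exp (-(3 * P.q / 4)) ≤ 2 / P.q * (1 - 3 * P.q / 7) :=
      mul_le_mul_of_nonneg_left e2 (by positivity)
    have e7 : Real.exp (P.q / 4) * P.kap v ≤ (1 + P.q / 3) * P.kap v := mul_le_mul_of_nonneg_right e3 hκ.le
    have e8 : 2 / P.q * (1 - 3 * P.q / 7) = 2 / P.q - 6 / 7 := by field_simp; ring
    have e9 : P.q / 3 * P.kap v ≤ 1 / 3 := by nlinarith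
    linarith
  have h6 : P.q ^ 2 / 8 ≤ P.q / 2 * Real.log ((2 / P.q + P.kap v) / (2 / P.q * Real.exp (-P.q) + P.kap v)) := by
    calc P.q ^ 2 / 8 = P.q / 2 * (P.q / 4) := by ring
      _ ≤ _ := mul_le_mul_of_nonneg_left h5 (by positivity)
  linarith

/-- Where `v ≤ v1`: `e^{-θ} = C_* (v + κ)`; `C = C_* C_v`. -/
theorem exp_th (hP : P.Ok) (hv : W.Sol P.op v) (hκ : 0 < P.kap v) {x : E3} (hx : x ∈ cAnn P.R) (h : v x ≤ P.v1) :
    Real.exp (-P.th v x) = P.Cst v * (v x + P.kap v) := by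
  have hv1 : 0 < P.v1 := hP.v1_pos
  have h1 := ff_exact hP.expo hκ (z0 := P.v1) (fun z _ hz => by
    unfold Par.p Par.b
    rw [Real.smoothTransition.one_of_one_le]
    · ring
    · rw [le_div_iff₀ hv1]
      linarith) (hv.nonneg x hx) h le_rfl
  have h0 := hv.nonneg x hx
  have h2 : Real.exp (P.th v x - P.F v P.v1) = (P.v1 + P.kap v) / (v x + P.kap v) := by
    have h3 : P.th v x - P.F v P.v1 = Real.log ((P.v1 + P.kap v) / (v x + P.kap v)) := h1
    rw [h3, Real.exp_log (by positivity)]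
  unfold Par.Cst
  have h4 : Real.exp (-P.th v x) = Real.exp (-P.F v P.v1) * (Real.exp (P.th v x - P.F v P.v1))⁻¹ := by
    rw [← Real.exp_neg, ← Real.exp_add]
    congr 1
    ring
  rw [h4, h2, inv_div]
  ring

theorem CC_eq (hP : P.Ok) (hκ : 0 < P.kap v) : P.CC v = P.Cst v * P.Cv v := by
  obtain ⟨h1, h2, h3, h4⟩ := fn_R hP
  have hv1 : 0 < P.v1 := hP.v1_pos
  have h5 := ff_exact hP.expo hκ (z0 := P.v1) (fun z _ hz => by
    unfold Par.p Par.b
    rw [Real.smoothTransition.one_of_one_le]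
    · ring
    · rw [le_div_iff₀ hv1]
      linarith) (a := 0) le_rfl hv1.le le_rfl
  have h6 : Real.exp (P.T v - P.F v P.v1) = (P.v1 + P.kap v) / (0 + P.kap v) := by
    have h7 : P.T v - P.F v P.v1 = Real.log ((P.v1 + P.kap v) / (0 + P.kap v)) := h5
    rw [h7, Real.exp_log (by positivity)]
  have h7 : Real.exp (-P.T v) = Real.exp (-P.F v P.v1) * (Real.exp (P.T v - P.F v P.v1))⁻¹ := by
    rw [← Real.exp_neg, ← Real.exp_add]
    congr 1
    ring
  have h8 : P.Cv v = P.kap v * P.R := by unfold Par.kap; field_simp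
  unfold Par.CC Par.Cst
  rw [h7, h6, inv_div, h8, zero_add]
  ring

end UMB.B
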