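import Pool.Agent.Lib.UMB.B.Defs
import Pool.Agent.Lib.UMB.W.E3
import Pool.Agent.Lib.UMB.W.E4

/-! # UMB.B, chunk Ko: pointwise bounds on the coefficients -/

set_option autoImplicit false

open Filter Topology Set MeasureTheory
open scoped ContDiff BigOperators
open Pool.Agent.Lib.PenroseSph (E3 Tens pd chr)
open UMB.Lin (Ann cAnn)

namespace UMB.B

variable {D : OpData} {C0 lam : ℝ} {v : E3 → ℝ} {x : E3}

theorem ko_mem (hD : D.Ok) (hx : x ∈ cAnn D.R) : D.a < ‖x‖ := lt_of_lt_of_le hD.a_lt hx.1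

theorem ko_Gs (hD : D.Ok) (hx : x ∈ cAnn D.R) (i j : Fin 3) : D.G x i j = D.G x j i := by
  have h := hD.G_symm x (ko_mem hD hx)
  exact (h.apply i j).symm

theorem ko_symm (hD : D.Ok) (hx : x ∈ cAnn D.R) (i j : Fin 3) : D.aa v x i j = D.aa v x j i := by
  unfold OpData.aa
  rw [ko_Gs hD hx i j]
  ring

theorem ko_q1 (ζ : Fin 3 → ℝ) :
    q1 (D.aa v x) ζ = q1 (D.G x) ζ - (2 - D.p (D.vd v x)) * (∑ i, D.nn v x i * ζ i) ^ 2 := by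
  rw [UMB.W.e4_q1_rank (D.G x) (D.aa v x) (D.nn v x) ζ (D.p (D.vd v x)) (fun i j => rfl)]
  ring

theorem ko_cs (hD : D.Ok) (hx : x ∈ cAnn D.R) (ζ : Fin 3 → ℝ) :
    (∑ i, D.nn v x i * ζ i) ^ 2 ≤ q1 (D.G x) ζ := by
  have hG := ko_Gs hD hx
  have hp := hD.G_pos x (ko_mem hD hx)
  have h0 : 0 ≤ q1 (D.G x) (D.qd v x) := UMB.W.e3_nonneg hp _
  have hN : 0 < D.Nd v x := by
    unfold OpData.Nd
    have := hD.eps_pos
    positivity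
  have h1 : ∑ i, D.nn v x i * ζ i = UMB.W.e3_b (D.G x) (D.qd v x) ζ / D.Nd v x :=
    UMB.W.e3_sum hG _ _ (fun i => rfl)
  have h2 := UMB.W.e3_cs hG hp (D.qd v x) ζ
  have h3 : 0 ≤ q1 (D.G x) ζ := UMB.W.e3_nonneg hp _
  have h4 : (UMB.W.e3_b (D.G x) (D.qd v x) ζ) ^ 2 ≤ q1 (D.G x) (D.qd v x) * q1 (D.G x) ζ := by
    have h5 : (UMB.W.e3_b (D.G x) (D.qd v x) ζ) ^ 2
        ≤ (Real.sqrt (q1 (D.G x) (D.qd v x)) * Real.sqrt (q1 (D.G x) ζ)) ^ 2 := by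
      rw [← sq_abs]
      exact pow_le_pow_left₀ (abs_nonneg _) h2 2
    rw [mul_pow, Real.sq_sqrt h0, Real.sq_sqrt h3] at h5
    exact h5
  have h6 : D.Nd v x ^ 2 = q1 (D.G x) (D.qd v x) + D.eps ^ 2 := by
    unfold OpData.Nd
    rw [Real.sq_sqrt]
    have := hD.eps_pos
    positivity
  rw [h1, div_pow, div_le_iff₀ (by positivity), h6]
  nlinarith [mul_nonneg h3 (sq_nonneg D.eps)]

theorem ko_P (hD : D.Ok) : D.p0 ≤ D.p (D.vd v x) ∧ D.p (D.vd v x) ≤ 2 := ⟨hD.p_ge _, hD.p_le _⟩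

theorem ko_ell (hD : D.Ok) (hL : LinHyp D C0 lam) (hx : x ∈ cAnn D.R) (ζ : Fin 3 → ℝ) :
    (D.p0 - 1) * lam * vsq ζ ≤ q1 (D.aa v x) ζ := by
  have h1 := ko_cs (v := v) hD hx ζ
  have h2 := hL.ell x hx ζ
  have h3 := (ko_P (v := v) (x := x) hD)
  have h4 := hD.one_lt_p0
  have h5 := hL.lam_pos
  have h6 : 0 ≤ vsq ζ := by unfold vsq; positivity
  have h7 : 0 ≤ lam * vsq ζ := by positivity
  rw [ko_q1]
  nlinarith [mul_nonneg (sub_nonneg.mpr h3.2) (sub_nonneg.mpr h1), mul_nonneg (sub_nonneg.mpr h4.le) (sub_nonneg.mpr h2),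
    mul_nonneg (sub_nonneg.mpr h3.1) (le_trans h7 h2)]

theorem ko_pos (hD : D.Ok) (hx : x ∈ cAnn D.R) (ζ : Fin 3 → ℝ) : 0 ≤ q1 (D.aa v x) ζ := by
  have h1 := ko_cs (v := v) hD hx ζ
  have h3 := (ko_P (v := v) (x := x) hD)
  have h4 := hD.one_lt_p0
  have h5 : 0 ≤ q1 (D.G x) ζ := UMB.W.e3_nonneg (hD.G_pos x (ko_mem hD hx)) _
  rw [ko_q1]
  nlinarith [mul_nonneg (sub_nonneg.mpr h3.2) (sub_nonneg.mpr h1)]

theorem ko_le (hD : D.Ok) (ζ : Fin 3 → ℝ) : q1 (D.aa v x) ζ ≤ q1 (D.G x) ζ := by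
  have h3 := (ko_P (v := v) (x := x) hD)
  rw [ko_q1]
  nlinarith [mul_nonneg (sub_nonneg.mpr h3.2) (sq_nonneg (∑ i, D.nn v x i * ζ i))]

theorem ko_r (hx : x ∈ cAnn D.R) : 0 < ‖x‖ := lt_of_lt_of_le one_pos hx.1

/-- `|G(ζ,ζ) - |ζ|²| ≤ 3 (C0/r) |ζ|²`. -/
theorem ko_G (hL : LinHyp D C0 lam) (hx : x ∈ cAnn D.R) (ζ : Fin 3 → ℝ) :
    |q1 (D.G x) ζ - vsq ζ| ≤ 3 * (C0 / ‖x‖) * vsq ζ := by
  have hr := ko_r hx
  have he : 0 ≤ C0 / ‖x‖ := div_nonneg hL.nonneg hr.le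
  have h1 : q1 (D.G x) ζ - vsq ζ = ∑ i, ∑ j, (D.G x i j - (1 : Matrix (Fin 3) (Fin 3) ℝ) i j) * ζ i * ζ j := by
    unfold q1 vsq
    simp only [Fin.sum_univ_three, Matrix.one_apply]
    simp
    ring
  have h2 : |∑ i, ∑ j, (D.G x i j - (1 : Matrix (Fin 3) (Fin 3) ℝ) i j) * ζ i * ζ j|
      ≤ ∑ i, ∑ j, (C0 / ‖x‖) * |ζ i| * |ζ j| := by
    refine (Finset.abs_sum_le_sum_abs _ _).trans (Finset.sum_le_sum fun i _ => ?_)
    refine (Finset.abs_sum_le_sum_abs _ _).trans (Finset.sum_le_sum fun j _ => ?_)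
    rw [abs_mul, abs_mul]
    have := hL.G_sub x hx i j
    gcongr
  have h3 : ∑ i, ∑ j, (C0 / ‖x‖) * |ζ i| * |ζ j| ≤ 3 * (C0 / ‖x‖) * vsq ζ := by
    unfold vsq
    simp only [Fin.sum_univ_three]
    rw [← sq_abs (ζ 0), ← sq_abs (ζ 1), ← sq_abs (ζ 2)]
    nlinarith [mul_nonneg he (sq_nonneg (|ζ 0| - |ζ 1|)), mul_nonneg he (sq_nonneg (|ζ 0| - |ζ 2|)),
      mul_nonneg he (sq_nonneg (|ζ 1| - |ζ 2|))]
  rw [h1]
  exact h2.trans h3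

theorem ko_nn (hD : D.Ok) (hL : LinHyp D C0 lam) (hx : x ∈ cAnn D.R) :
    vsq (D.nn v x) ≤ 1 + 3 * (C0 / ‖x‖) := by
  have h1 := ko_cs (v := v) hD hx (D.nn v x)
  have h2 := (abs_le.mp (ko_G hL hx (D.nn v x))).2
  have h3 : ∑ i, D.nn v x i * D.nn v x i = vsq (D.nn v x) := by
    unfold vsq
    refine Finset.sum_congr rfl fun i _ => ?_
    ring
  rw [h3] at h1
  have h4 : 0 ≤ vsq (D.nn v x) := by unfold vsq; positivity
  have hr := ko_r hx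
  have he : 0 ≤ C0 / ‖x‖ := div_nonneg hL.nonneg hr.le
  rcases h4.eq_or_lt with h5 | h5
  · rw [← h5]; positivity
  · have h6 : vsq (D.nn v x) * vsq (D.nn v x) ≤ (1 + 3 * (C0 / ‖x‖)) * vsq (D.nn v x) := by nlinarith
    exact le_of_mul_le_mul_right h6 h5

theorem ko_entry (hD : D.Ok) (hL : LinHyp D C0 lam) (hx : x ∈ cAnn D.R) (i j : Fin 3) :
    |D.aa v x i j| ≤ 1 + C0 / ‖x‖ := by
  have hd : ∀ i, 0 ≤ D.aa v x i i ∧ D.aa v x i i ≤ 1 + C0 / ‖x‖ := by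
    intro i
    have e1 : ∀ M : Matrix (Fin 3) (Fin 3) ℝ, q1 M (fun k => if k = i then 1 else 0) = M i i := by
      intro M
      unfold q1
      fin_cases i <;> simp [Fin.sum_univ_three]
    have h1 := ko_pos (v := v) hD hx (fun k => if k = i then 1 else 0)
    have h2 := ko_le (v := v) (x := x) hD (fun k => if k = i then 1 else 0)
    rw [e1] at h1 h2
    rw [e1] at h2
    have h3 := (abs_le.mp (hL.G_sub x hx i i)).2
    simp at h3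
    exact ⟨h1, by linarith⟩
  have e2 : ∀ s : ℝ, q1 (D.aa v x) (fun k => (if k = i then 1 else 0) + s * (if k = j then 1 else 0))
      = D.aa v x i i + s * D.aa v x i j + s * D.aa v x j i + s ^ 2 * D.aa v x j j := by
    intro s
    unfold q1
    fin_cases i <;> fin_cases j <;> simp [Fin.sum_univ_three] <;> ring
  have h1 := ko_pos (v := v) hD hx (fun k => (if k = i then 1 else 0) + 1 * (if k = j then 1 else 0))
  have h2 := ko_pos (v := v) hD hx (fun k => (if k = i then 1 else 0) + (-1) * (if k = j then 1 else 0))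
  rw [e2] at h1 h2
  have h3 := ko_symm (v := v) hD hx i j
  have h4 := hd i
  have h5 := hd j
  rw [abs_le]
  constructor <;> nlinarith

theorem ko_xh (hx : x ∈ cAnn D.R) : vsq (xh x) = 1 := by
  have hpos := ko_r hx
  have h1 : ‖x‖ ^ 2 = ∑ i, x i ^ 2 := by
    rw [EuclideanSpace.norm_sq_eq]
    simp
  unfold vsq xh
  simp only [div_pow]
  rw [← Finset.sum_div, ← h1]
  field_simp

/-- The bounds used by all barriers, `S = (2 - p(v_d)) |n|²`, `e = C0/r`. -/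
theorem ko_main (hD : D.Ok) (hL : LinHyp D C0 lam) (hx : x ∈ cAnn D.R) :
    0 ≤ (2 - D.p (D.vd v x)) * vsq (D.nn v x) ∧
    (2 - D.p (D.vd v x)) * vsq (D.nn v x) ≤ (2 - D.p (D.vd v x)) * (1 + 3 * (C0 / ‖x‖)) ∧
    tr0 (D.aa v x) ≤ 3 + 3 * (C0 / ‖x‖) - (2 - D.p (D.vd v x)) * vsq (D.nn v x) ∧
    3 - 3 * (C0 / ‖x‖) - (2 - D.p (D.vd v x)) * vsq (D.nn v x) ≤ tr0 (D.aa v x) ∧
    1 - 3 * (C0 / ‖x‖) - (2 - D.p (D.vd v x)) * vsq (D.nn v x) ≤ X0 (D.aa v x) x ∧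
    X0 (D.aa v x) x ≤ 1 + 3 * (C0 / ‖x‖) ∧ (D.p0 - 1) * lam ≤ X0 (D.aa v x) x := by
  have hP := (ko_P (v := v) (x := x) hD)
  have hP2 : 0 ≤ 2 - D.p (D.vd v x) := sub_nonneg.mpr hP.2
  have hn := ko_nn (v := v) hD hL hx
  have hn0 : 0 ≤ vsq (D.nn v x) := by unfold vsq; positivity
  have hxh := ko_xh hx
  have htr : tr0 (D.aa v x) = tr0 (D.G x) - (2 - D.p (D.vd v x)) * vsq (D.nn v x) := by
    unfold tr0 vsq OpData.aa
    simp only [Fin.sum_univ_three]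
    ring
  have h00 := abs_le.mp (hL.G_sub x hx 0 0)
  have h11 := abs_le.mp (hL.G_sub x hx 1 1)
  have h22 := abs_le.mp (hL.G_sub x hx 2 2)
  simp at h00 h11 h22
  have htG : tr0 (D.G x) = D.G x 0 0 + D.G x 1 1 + D.G x 2 2 := by
    unfold tr0
    simp [Fin.sum_univ_three]
  have hX : X0 (D.aa v x) x = q1 (D.G x) (xh x) - (2 - D.p (D.vd v x)) * (∑ i, D.nn v x i * xh x i) ^ 2 := by
    unfold X0
    rw [ko_q1]
  have hGX := abs_le.mp (ko_G hL hx (xh x))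
  rw [hxh] at hGX
  have hcs : (∑ i, D.nn v x i * xh x i) ^ 2 ≤ vsq (D.nn v x) := by
    have h1 := Finset.sum_mul_sq_le_sq_mul_sq Finset.univ (D.nn v x) (xh x)
    have h2 : ∑ i, xh x i ^ 2 = 1 := hxh
    rw [h2, mul_one] at h1
    exact h1
  have hell := ko_ell (v := v) hD hL hx (xh x)
  rw [hxh] at hell
  refine ⟨mul_nonneg hP2 hn0, mul_le_mul_of_nonneg_left hn hP2, ?_, ?_, ?_, ?_, ?_⟩
  · rw [htr, htG]; linarith
  · rw [htr, htG]; linarith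
  · rw [hX]; nlinarith [mul_le_mul_of_nonneg_left hcs hP2]
  · rw [hX]; nlinarith [mul_nonneg hP2 (sq_nonneg (∑ i, D.nn v x i * xh x i))]
  · unfold X0; linarith

theorem ko_tr2 (hD : D.Ok) (hL : LinHyp D C0 lam) (hx : x ∈ cAnn D.R) {M : Matrix (Fin 3) (Fin 3) ℝ} {m : ℝ}
    (hM : ∀ i j, |M i j| ≤ m) : |tr2 (D.aa v x) M| ≤ 9 * (1 + C0 / ‖x‖) * m := by
  have hr := ko_r hx
  have he : 0 ≤ C0 / ‖x‖ := div_nonneg hL.nonneg hr.le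
  have h1 : |tr2 (D.aa v x) M| ≤ ∑ _i : Fin 3, ∑ _j : Fin 3, (1 + C0 / ‖x‖) * m := by
    unfold tr2
    refine (Finset.abs_sum_le_sum_abs _ _).trans (Finset.sum_le_sum fun i _ => ?_)
    refine (Finset.abs_sum_le_sum_abs _ _).trans (Finset.sum_le_sum fun j _ => ?_)
    rw [abs_mul]
    exact mul_le_mul (ko_entry hD hL hx i j) (hM i j) (abs_nonneg _) (by positivity)
  refine h1.trans (le_of_eq ?_)
  simp
  ring

/-- Bound of the radial drift. -/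
theorem ko_bx (hD : D.Ok) (hL : LinHyp D C0 lam) (hx : x ∈ cAnn D.R) :
    |bx (D.bb v x) x| ≤ 9 * (1 + C0 / ‖x‖) * (11 / 4 + 3 / 2 * (C0 / ‖x‖)) * (C0 / ‖x‖ ^ 2) := by
  have hr := ko_r hx
  have he : 0 ≤ C0 / ‖x‖ := div_nonneg hL.nonneg hr.le
  have he2 : 0 ≤ C0 / ‖x‖ ^ 2 := div_nonneg hL.nonneg (by positivity)
  set M := 9 * (1 + C0 / ‖x‖) * (C0 / ‖x‖ ^ 2) with hM
  have hM0 : 0 ≤ M := by positivity
  have h1 : ∀ i, |tr2 (D.aa v x) (D.Gam i x)| ≤ M := fun i => ko_tr2 hD hL hx fun k l => hL.Gam_le x hx i k l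
  have h2 : |tr2 (D.aa v x) (D.k x)| ≤ M := ko_tr2 hD hL hx fun k l => hL.k_le x hx k l
  have hxh : vsq (xh x) = 1 := ko_xh hx
  have hn := ko_nn (v := v) hD hL hx
  have hs : ∑ i, |xh x i| ≤ 7 / 4 := by
    have h3 : (∑ i, |xh x i|) ^ 2 ≤ 3 := by
      have h4 : vsq (xh x) = |xh x 0| ^ 2 + |xh x 1| ^ 2 + |xh x 2| ^ 2 := by
        unfold vsq
        simp [Fin.sum_univ_three]
      rw [h4] at hxh
      simp only [Fin.sum_univ_three]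
      nlinarith [sq_nonneg (|xh x 0| - |xh x 1|), sq_nonneg (|xh x 0| - |xh x 2|), sq_nonneg (|xh x 1| - |xh x 2|)]
    have h5 : 0 ≤ ∑ i, |xh x i| := Finset.sum_nonneg fun i _ => abs_nonneg _
    nlinarith
  have hnx : |∑ i, D.nn v x i * xh x i| ≤ 1 + 3 / 2 * (C0 / ‖x‖) := by
    have h3 := Finset.sum_mul_sq_le_sq_mul_sq Finset.univ (D.nn v x) (xh x)
    have h4 : ∑ i, xh x i ^ 2 = 1 := hxh
    rw [h4, mul_one] at h3
    have h5 : (∑ i, D.nn v x i * xh x i) ^ 2 ≤ (1 + 3 / 2 * (C0 / ‖x‖)) ^ 2 := by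
      have h6 : ∑ i, D.nn v x i ^ 2 ≤ 1 + 3 * (C0 / ‖x‖) := hn
      nlinarith
    exact abs_le_of_sq_le_sq h5 (by positivity)
  have h3 : bx (D.bb v x) x = - ∑ i, tr2 (D.aa v x) (D.Gam i x) * xh x i
      + tr2 (D.aa v x) (D.k x) * ∑ i, D.nn v x i * xh x i := by
    unfold bx OpData.bb
    simp only [Fin.sum_univ_three]
    ring
  have h4 : |∑ i, tr2 (D.aa v x) (D.Gam i x) * xh x i| ≤ M * (7 / 4) := by
    refine (Finset.abs_sum_le_sum_abs _ _).trans ?_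
    have h5 : ∑ i, |tr2 (D.aa v x) (D.Gam i x) * xh x i| ≤ ∑ i, M * |xh x i| := by
      refine Finset.sum_le_sum fun i _ => ?_
      rw [abs_mul]
      exact mul_le_mul_of_nonneg_right (h1 i) (abs_nonneg _)
    rw [← Finset.mul_sum] at h5
    exact h5.trans (mul_le_mul_of_nonneg_left hs hM0)
  have h5 : |tr2 (D.aa v x) (D.k x) * ∑ i, D.nn v x i * xh x i| ≤ M * (1 + 3 / 2 * (C0 / ‖x‖)) := by
    rw [abs_mul]
    exact mul_le_mul h2 hnx (abs_nonneg _) hM0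
  have h6 : |bx (D.bb v x) x| ≤ M * (7 / 4) + M * (1 + 3 / 2 * (C0 / ‖x‖)) := by
    rw [h3]
    refine (abs_add_le _ _).trans ?_
    rw [abs_neg]
    exact add_le_add h4 h5
  refine h6.trans (le_of_eq ?_)
  rw [hM]
  ring

theorem ko_bx1 (hD : D.Ok) (hL : LinHyp D C0 lam) (hx : x ∈ cAnn D.R) (h : C0 / ‖x‖ ≤ 1 / 100) :
    |bx (D.bb v x) x| ≤ 26 * (C0 / ‖x‖ ^ 2) := by
  have h1 := ko_bx (v := v) hD hL hx
  have hr := ko_r hx
  have he : 0 ≤ C0 / ‖x‖ := div_nonneg hL.nonneg hr.le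
  have he2 : 0 ≤ C0 / ‖x‖ ^ 2 := div_nonneg hL.nonneg (by positivity)
  have h2 : 9 * (1 + C0 / ‖x‖) * (11 / 4 + 3 / 2 * (C0 / ‖x‖)) ≤ 26 := by nlinarith
  exact h1.trans (mul_le_mul_of_nonneg_right h2 he2)

theorem ko_bx2 (hD : D.Ok) (hL : LinHyp D C0 lam) (hx : x ∈ cAnn D.R) :
    |bx (D.bb v x) x| ≤ Bd C0 * C0 / ‖x‖ ^ 2 := by
  have h1 := ko_bx (v := v) hD hL hx
  have hr := ko_r hx
  have he : 0 ≤ C0 / ‖x‖ := div_nonneg hL.nonneg hr.le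
  have he1 : C0 / ‖x‖ ≤ C0 := div_le_self hL.nonneg hx.1
  have he2 : 0 ≤ C0 / ‖x‖ ^ 2 := div_nonneg hL.nonneg (by positivity)
  have h2 : 9 * (1 + C0 / ‖x‖) * (11 / 4 + 3 / 2 * (C0 / ‖x‖)) ≤ Bd C0 := by
    have h0 := hL.nonneg
    have h3 : 9 * (1 + C0 / ‖x‖) * (11 / 4 + 3 / 2 * (C0 / ‖x‖)) ≤ 9 * (1 + C0) * (11 / 4 + 3 / 2 * C0) := by
      gcongr
    unfold Bd
    nlinarith
  calc |bx (D.bb v x) x| ≤ 9 * (1 + C0 / ‖x‖) * (11 / 4 + 3 / 2 * (C0 / ‖x‖)) * (C0 / ‖x‖ ^ 2) := h1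
    _ ≤ Bd C0 * (C0 / ‖x‖ ^ 2) := mul_le_mul_of_nonneg_right h2 he2
    _ = Bd C0 * C0 / ‖x‖ ^ 2 := by ring

end UMB.B
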