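import Pool.Agent.Lib.UMB.B.Defs
import Pool.Agent.Lib.UMB.Lin.G1

/-! # UMB.B, chunk Mx: existence of an interior maximum point -/

set_option autoImplicit false

open Filter Topology Set MeasureTheory
open scoped ContDiff BigOperators
open Pool.Agent.Lib.PenroseSph (E3 Tens pd chr)
open UMB.Lin (Ann cAnn)

namespace UMB.B

theorem mx_open (R : ℝ) : IsOpen (Ann R) := by
  have h : Ann R = {x : E3 | 1 < ‖x‖} ∩ {x : E3 | ‖x‖ < R} := rfl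
  rw [h]
  exact (isOpen_lt continuous_const continuous_norm).inter (isOpen_lt continuous_norm continuous_const)

theorem mx_exists {R : ℝ} {w : E3 → ℝ} (hw : ContinuousOn w (cAnn R)) {x0 : E3} (hx0 : x0 ∈ cAnn R)
    (hpos : 0 < w x0) (hb1 : ∀ x : E3, ‖x‖ = 1 → w x ≤ 0) (hbR : ∀ x : E3, ‖x‖ = R → w x ≤ 0) :
    ∃ x ∈ Ann R, 0 < w x ∧ (∀ y ∈ cAnn R, w y ≤ w x) ∧ ∀ᶠ y in 𝓝 x, y ∈ Ann R ∧ w y ≤ w x := by
  obtain ⟨x, hx, hmax⟩ := (UMB.Lin.isCompact_cAnn R).exists_isMaxOn ⟨x0, hx0⟩ hw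
  have h1 : 0 < w x := lt_of_lt_of_le hpos (hmax hx0)
  have h2 : 1 < ‖x‖ := by
    rcases hx.1.lt_or_eq with h | h
    · exact h
    · exact absurd (hb1 x h.symm) (not_le.mpr h1)
  have h3 : ‖x‖ < R := by
    rcases hx.2.lt_or_eq with h | h
    · exact h
    · exact absurd (hbR x h) (not_le.mpr h1)
  refine ⟨x, ⟨h2, h3⟩, h1, fun y hy => hmax hy, ?_⟩
  filter_upwards [(mx_open R).mem_nhds (⟨h2, h3⟩ : x ∈ Ann R)] with y hy
  exact ⟨hy, hmax ⟨hy.1.le, hy.2.le⟩⟩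

end UMB.B
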