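import Pool.Agent.Lib.UMB.B.Defs

/-! # UMB.B, chunk Rad: radial functions -/

set_option autoImplicit false

open Filter Topology Set MeasureTheory
open scoped ContDiff BigOperators
open Pool.Agent.Lib.PenroseSph (E3 Tens pd chr)
open UMB.Lin (Ann cAnn)

namespace UMB.B

theorem rad_norm_pd {x : E3} (hx : x ≠ 0) :
    HasFDerivAt (fun y : E3 => ‖y‖) ((‖x‖)⁻¹ • innerSL ℝ x) x := by
  have h1 : HasFDerivAt (fun y : E3 => ‖y‖ ^ 2) (2 • innerSL ℝ x) x := by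
    exact (hasStrictFDerivAt_norm_sq x).hasFDerivAt
  have hpos : 0 < ‖x‖ := norm_pos_iff.mpr hx
  have h2 : HasFDerivAt (fun y : E3 => Real.sqrt (‖y‖ ^ 2)) ((1 / (2 * Real.sqrt (‖x‖ ^ 2))) • (2 • innerSL ℝ x)) x :=
    h1.sqrt (by positivity)
  have h3 : (fun y : E3 => Real.sqrt (‖y‖ ^ 2)) = fun y : E3 => ‖y‖ := by
    funext y
    exact Real.sqrt_sq (norm_nonneg y)
  rw [h3] at h2
  have h4 : (1 / (2 * Real.sqrt (‖x‖ ^ 2))) • ((2 : ℕ) • innerSL ℝ x) = (‖x‖)⁻¹ • innerSL ℝ x := by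
    rw [Real.sqrt_sq hpos.le]
    ext z
    simp
    field_simp
  rw [h4] at h2
  exact h2

theorem rad_fd {f : ℝ → ℝ} {f' : ℝ} {x : E3} (hx : x ≠ 0) (hf : HasDerivAt f f' ‖x‖) (i : Fin 3) :
    pd i (fun y : E3 => f ‖y‖) x = f' * (x i / ‖x‖) := by
  have h1 : HasFDerivAt (fun y : E3 => f ‖y‖) (f' • ((‖x‖)⁻¹ • innerSL ℝ x)) x :=
    hf.comp_hasFDerivAt x (rad_norm_pd hx)
  have h2 : inner ℝ x (EuclideanSpace.single i (1 : ℝ)) = x i := by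
    simp [EuclideanSpace.inner_single_right]
  unfold pd
  rw [h1.fderiv]
  change f' * ((‖x‖)⁻¹ * inner ℝ x (EuclideanSpace.single i (1 : ℝ))) = f' * (x i / ‖x‖)
  rw [h2]
  ring

/-- The coordinate quotient `x_i/|x|` has derivative `δ_ij/|x| - x_i x_j/|x|³`. -/
theorem rad_quot {x : E3} (hx : x ≠ 0) {f1 : ℝ → ℝ} {f2 : ℝ} (hf1 : HasDerivAt f1 f2 ‖x‖) (i j : Fin 3) :
    pd i (fun y : E3 => f1 ‖y‖ * (y j / ‖y‖)) x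
      = f2 * (x i / ‖x‖) * (x j / ‖x‖)
        + f1 ‖x‖ / ‖x‖ * ((if i = j then 1 else 0) - (x i / ‖x‖) * (x j / ‖x‖)) := by
  have hpos : 0 < ‖x‖ := norm_pos_iff.mpr hx
  have h1 : HasFDerivAt (fun y : E3 => f1 ‖y‖ * (‖y‖)⁻¹) ((f2 * (‖x‖)⁻¹ + f1 ‖x‖ * (-(‖x‖ ^ 2)⁻¹)) •
      ((‖x‖)⁻¹ • innerSL ℝ x)) x := by
    have h2 : HasDerivAt (fun r : ℝ => f1 r * r⁻¹) (f2 * (‖x‖)⁻¹ + f1 ‖x‖ * (-(‖x‖ ^ 2)⁻¹)) ‖x‖ :=
      hf1.mul (hasDerivAt_inv hpos.ne')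
    exact h2.comp_hasFDerivAt x (rad_norm_pd hx)
  have h3 : HasFDerivAt (fun y : E3 => y j) (EuclideanSpace.proj j : E3 →L[ℝ] ℝ) x :=
    (EuclideanSpace.proj j : E3 →L[ℝ] ℝ).hasFDerivAt
  have h4 : HasFDerivAt (fun y : E3 => (f1 ‖y‖ * (‖y‖)⁻¹) * y j) _ x := h1.mul h3
  have h2 : inner ℝ x (EuclideanSpace.single i (1 : ℝ)) = x i := by
    simp [EuclideanSpace.inner_single_right]
  have h5 : (fun y : E3 => f1 ‖y‖ * (y j / ‖y‖)) = fun y : E3 => (f1 ‖y‖ * (‖y‖)⁻¹) * y j := by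
    funext y
    rw [div_eq_mul_inv]; ring
  unfold pd
  rw [h5, h4.fderiv]
  change (f1 ‖x‖ * (‖x‖)⁻¹) * (EuclideanSpace.single i (1 : ℝ) : E3) j
    + x j * ((f2 * (‖x‖)⁻¹ + f1 ‖x‖ * (-(‖x‖ ^ 2)⁻¹)) * ((‖x‖)⁻¹ * inner ℝ x (EuclideanSpace.single i (1 : ℝ)))) = _
  rw [h2]
  by_cases hij : i = j
  · subst hij
    simp
    field_simp
    ring
  · have hji : ¬ j = i := fun h => hij h.symm
    simp [hij, hji]
    field_simp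

theorem rad_D1 {f : ℝ → ℝ} {f1 : ℝ → ℝ} {x : E3} (hx : x ≠ 0) (hf : HasDerivAt f (f1 ‖x‖) ‖x‖) (i : Fin 3) :
    D1 (fun y : E3 => f ‖y‖) x i = f1 ‖x‖ * xh x i := rad_fd hx hf i

theorem rad_D2 {f f1 : ℝ → ℝ} {f2 : ℝ} {x : E3} (hx : x ≠ 0) (hf : ∀ᶠ r in 𝓝 ‖x‖, HasDerivAt f (f1 r) r)
    (hf1 : HasDerivAt f1 f2 ‖x‖) (i j : Fin 3) :
    D2 (fun y : E3 => f ‖y‖) x i j = f2 * xh x i * xh x j
      + f1 ‖x‖ / ‖x‖ * ((if i = j then 1 else 0) - xh x i * xh x j) := by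
  have h1 : pd j (fun y : E3 => f ‖y‖) =ᶠ[𝓝 x] fun y : E3 => f1 ‖y‖ * (y j / ‖y‖) := by
    have h2 : ∀ᶠ y in 𝓝 x, HasDerivAt f (f1 ‖y‖) ‖y‖ := continuous_norm.continuousAt.eventually hf
    have h3 : ∀ᶠ y in 𝓝 x, y ≠ (0 : E3) := eventually_ne_nhds hx
    filter_upwards [h2, h3] with y h4 h5
    exact rad_fd h5 h4 j
  have h2 : D2 (fun y : E3 => f ‖y‖) x i j = pd i (fun y : E3 => f1 ‖y‖ * (y j / ‖y‖)) x := by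
    unfold D2 pd
    unfold pd at h1
    rw [h1.fderiv_eq]
  rw [h2, rad_quot hx hf1 i j]
  rfl

theorem rad_xh {x : E3} (hx : x ≠ 0) : ∑ i, xh x i ^ 2 = 1 := by
  have hpos : 0 < ‖x‖ := norm_pos_iff.mpr hx
  have h1 : ‖x‖ ^ 2 = ∑ i, x i ^ 2 := by
    rw [EuclideanSpace.norm_sq_eq]
    simp
  unfold xh
  simp only [div_pow]
  rw [← Finset.sum_div, ← h1]
  field_simp

/-- The operator on a radial function: `f'' X0 + (f'/r)(tr - X0) + f' b.x/r`. -/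
theorem rad_op {f f1 : ℝ → ℝ} {f2 : ℝ} {x : E3} (hx : x ≠ 0) (hf : ∀ᶠ r in 𝓝 ‖x‖, HasDerivAt f (f1 r) r)
    (hf1 : HasDerivAt f1 f2 ‖x‖) (A : Matrix (Fin 3) (Fin 3) ℝ) (b : Fin 3 → ℝ) :
    tr2 A (D2 (fun y : E3 => f ‖y‖) x) + ∑ i, b i * D1 (fun y : E3 => f ‖y‖) x i
      = f2 * X0 A x + f1 ‖x‖ / ‖x‖ * (tr0 A - X0 A x) + f1 ‖x‖ * bx b x := by
  have h1 : HasDerivAt f (f1 ‖x‖) ‖x‖ := hf.self_of_nhds
  unfold tr2 X0 q1 tr0 bx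
  simp only [rad_D2 hx hf hf1, rad_D1 hx h1, Fin.sum_univ_three]
  simp
  ring

/-- `A(dβ, dβ) = f'² X0`. -/
theorem rad_q1 {f f1 : ℝ → ℝ} {x : E3} (hx : x ≠ 0) (hf : HasDerivAt f (f1 ‖x‖) ‖x‖)
    (A : Matrix (Fin 3) (Fin 3) ℝ) :
    q1 A (D1 (fun y : E3 => f ‖y‖) x) = f1 ‖x‖ ^ 2 * X0 A x := by
  unfold q1 X0 q1
  simp only [rad_D1 hx hf, Fin.sum_univ_three]
  ring

/-- Radial functions are `C²`. -/
theorem rad_C2 {f : ℝ → ℝ} {x : E3} (hx : x ≠ 0) (hf : ContDiffAt ℝ 2 f ‖x‖) :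
    ContDiffAt ℝ 2 (fun y : E3 => f ‖y‖) x :=
  ContDiffAt.comp x hf (contDiffAt_norm ℝ hx)

end UMB.B
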