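import Pool.Agent.Lib.UMB.B.Ct
import Pool.Agent.Lib.UMB.B.Rad
import Pool.Agent.Lib.UMB.B.Ko
import Pool.Agent.Lib.UMB.B.Mx
import Pool.Agent.Lib.UMB.W.E1

/-! # UMB.B, chunk Th: the equation of `θ = F_κ(v)` and strict supersolutions -/

set_option autoImplicit false

open Filter Topology Set MeasureTheory
open scoped ContDiff BigOperators
open Pool.Agent.Lib.PenroseSph (E3 Tens pd chr)
open UMB.Lin (Ann cAnn)

namespace UMB.B

variable {D : OpData} {C0 lam : ℝ} {v : E3 → ℝ} {x : E3}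

theorem th_expo (hD : D.Ok) : W.Expo D.p0 D.p := ⟨hD.one_lt_p0, hD.p_smooth, hD.p_ge, hD.p_le⟩

/-- `L θ = γ(v) A(dθ, dθ)`. -/
theorem th_eq (hD : D.Ok) (hv : W.Sol D v) {κ : ℝ} (hκ : 0 < κ) (hx : x ∈ Ann D.R) :
    tr2 (D.aa v x) (D2 (W.theta D.p κ v) x) + ∑ i, D.bb v x i * D1 (W.theta D.p κ v) x i
      = W.kt D.p (v x) * q1 (D.aa v x) (D1 (W.theta D.p κ v) x) := by
  have hp := th_expo hD
  have h0 : ∀ x ∈ Ann D.R, 0 ≤ v x := fun x hx => hv.nonneg x ⟨hx.1.le, hx.2.le⟩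
  have h1 := fun i => W.D1_theta hp hκ (mx_open D.R) hv.smooth h0 hx i
  have h2 := fun i j => W.D2_theta hp hκ (mx_open D.R) hv.smooth h0 hx i j
  have h3 := hv.solves x hx
  set φ := (W.KK D.p (v x) + κ)⁻¹ with hφ
  have e1 : tr2 (D.aa v x) (D2 (W.theta D.p κ v) x)
      = - φ * tr2 (D.aa v x) (D2 v x) + W.kt D.p (v x) * φ ^ 2 * q1 (D.aa v x) (D1 v x) := by
    unfold tr2 q1
    simp only [h2, Fin.sum_univ_three]
    ring
  have e2 : ∑ i, D.bb v x i * D1 (W.theta D.p κ v) x i = - φ * ∑ i, D.bb v x i * D1 v x i := by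
    simp only [h1, Fin.sum_univ_three]
    ring
  have e3 : q1 (D.aa v x) (D1 (W.theta D.p κ v) x) = φ ^ 2 * q1 (D.aa v x) (D1 v x) := by
    unfold q1
    simp only [h1, Fin.sum_univ_three]
    ring
  rw [e1, e2, e3]
  have h4 : - φ * tr2 (D.aa v x) (D2 v x) + - φ * ∑ i, D.bb v x i * D1 v x i = 0 := by
    have : - φ * (tr2 (D.aa v x) (D2 v x) + ∑ i, D.bb v x i * D1 v x i) = 0 := by rw [h3]; ring
    linarith
  linarith

/-- The inner barrier is a strict supersolution everywhere. -/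
theorem th_be1 (hD : D.Ok) (hL : LinHyp D C0 lam) (hx : x ∈ cAnn D.R) {q : ℝ} (hq : D.p0 = 1 + q) {γ : ℝ} (hγ : 1 ≤ γ) :
    tr2 (D.aa v x) (D2 (fun y : E3 => be1 C0 lam q ‖y‖) x)
      + ∑ i, D.bb v x i * D1 (fun y : E3 => be1 C0 lam q ‖y‖) x i
      < γ * q1 (D.aa v x) (D1 (fun y : E3 => be1 C0 lam q ‖y‖) x) := by
  have hr0 := ko_r hx
  have hx0 : x ≠ 0 := norm_pos_iff.mp hr0
  have hq0 : 0 < q := by have := hD.one_lt_p0; linarith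
  have hC := hL.nonneg
  have hlam := hL.lam_pos
  have hr1 : 1 ≤ ‖x‖ := hx.1
  have he0 : 0 ≤ C0 / ‖x‖ := div_nonneg hC hr0.le
  have he1 : C0 / ‖x‖ ≤ C0 := div_le_self hC hr1
  set K := K1 C0 lam q with hK
  have hBd : 0 ≤ Bd C0 := by unfold Bd; positivity
  have hKeq : K = 2 + (3 + 3 * C0 + Bd C0 * C0) / (q * lam) := rfl
  have hM0 : 0 ≤ 3 + 3 * C0 + Bd C0 * C0 := by positivity
  have hK2 : 2 ≤ K := by
    rw [hKeq]
    have : 0 ≤ (3 + 3 * C0 + Bd C0 * C0) / (q * lam) := by positivity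
    linarith
  have hKM : 3 + 3 * C0 + Bd C0 * C0 < K * (q * lam) := by
    have h1 : (3 + 3 * C0 + Bd C0 * C0) / (q * lam) * (q * lam) = 3 + 3 * C0 + Bd C0 * C0 := by
      field_simp
    rw [hKeq, add_mul, h1]
    have : 0 < q * lam := by positivity
    linarith
  have hd1 : ∀ r : ℝ, HasDerivAt (fun t : ℝ => be1 C0 lam q t) K r := by
    intro r
    unfold be1
    have h := ((hasDerivAt_id r).sub_const 1).const_mul (K1 C0 lam q)
    simpa using h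
  have hrr := rad_op (f := fun t : ℝ => be1 C0 lam q t) (f1 := fun _ : ℝ => K) (f2 := 0) hx0
    (Filter.Eventually.of_forall hd1) (hasDerivAt_const _ _) (D.aa v x) (D.bb v x)
  have hrq := rad_q1 (f := fun t : ℝ => be1 C0 lam q t) (f1 := fun _ : ℝ => K) hx0 (hd1 ‖x‖) (D.aa v x)
  rw [hrr, hrq]
  obtain ⟨h1, h2, h3, h4, h5, h6, h7⟩ := ko_main (v := v) hD hL hx
  have h8 := abs_le.mp (ko_bx2 (v := v) hD hL hx)
  have hX0 : q * lam ≤ X0 (D.aa v x) x := by rw [hq] at h7; linarith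
  have hqlam : 0 < q * lam := by positivity
  have h9 : Bd C0 * C0 / ‖x‖ ^ 2 ≤ Bd C0 * C0 :=
    div_le_self (by positivity) (one_le_pow₀ hr1)
  have h10 : K / ‖x‖ * (tr0 (D.aa v x) - X0 (D.aa v x) x) ≤ K * (3 + 3 * C0) := by
    have e1 : tr0 (D.aa v x) - X0 (D.aa v x) x ≤ 3 + 3 * C0 := by linarith
    have e2 : 0 ≤ K / ‖x‖ := by positivity
    have e3 : K / ‖x‖ ≤ K := div_le_self (by linarith) hr1
    calc K / ‖x‖ * (tr0 (D.aa v x) - X0 (D.aa v x) x) ≤ K / ‖x‖ * (3 + 3 * C0) :=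
          mul_le_mul_of_nonneg_left e1 e2
      _ ≤ K * (3 + 3 * C0) := mul_le_mul_of_nonneg_right e3 (by positivity)
  have h11 : K * bx (D.bb v x) x ≤ K * (Bd C0 * C0) := mul_le_mul_of_nonneg_left (by linarith) (by linarith)
  have h12 : K * (3 + 3 * C0 + Bd C0 * C0) < K * (K * (q * lam)) := mul_lt_mul_of_pos_left hKM (by linarith)
  have h13 : K ^ 2 * (q * lam) ≤ γ * (K ^ 2 * X0 (D.aa v x) x) := by
    have e1 : K ^ 2 * (q * lam) ≤ K ^ 2 * X0 (D.aa v x) x := mul_le_mul_of_nonneg_left hX0 (by positivity)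
    have e2 : 0 ≤ K ^ 2 * X0 (D.aa v x) x := le_trans (by positivity) e1
    nlinarith
  simp only [zero_mul, zero_add]
  nlinarith

theorem th_t {r : ℝ} (hr : 0 < r) : HasDerivAt (fun s : ℝ => (Real.sqrt s)⁻¹) (-(1 / 2) * ((Real.sqrt r)⁻¹) ^ 3) r := by
  have hs : 0 < Real.sqrt r := Real.sqrt_pos.mpr hr
  have h1 := (Real.hasDerivAt_sqrt hr.ne').inv hs.ne'
  have h2 : -(1 / (2 * Real.sqrt r)) / Real.sqrt r ^ 2 = -(1 / 2) * ((Real.sqrt r)⁻¹) ^ 3 := by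
    field_simp
  rw [h2] at h1
  exact h1

theorem th_be2_der {q r : ℝ} (hr : 0 < r) :
    HasDerivAt (fun s : ℝ => be2 C0 lam q s) (((Real.sqrt r)⁻¹) ^ 2 + 1 / 2 * ((Real.sqrt r)⁻¹) ^ 3) r := by
  have h1 := ((Real.hasDerivAt_log hr.ne').add_const (cc C0 lam q)).sub (th_t hr)
  have h2 : r⁻¹ = ((Real.sqrt r)⁻¹) ^ 2 := by
    rw [inv_pow, Real.sq_sqrt hr.le]
  rw [h2] at h1
  have h3 : ((Real.sqrt r)⁻¹) ^ 2 - (-(1 / 2) * ((Real.sqrt r)⁻¹) ^ 3)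
      = ((Real.sqrt r)⁻¹) ^ 2 + 1 / 2 * ((Real.sqrt r)⁻¹) ^ 3 := by ring
  rw [h3] at h1
  exact h1

theorem th_be2_der2 {r : ℝ} (hr : 0 < r) :
    HasDerivAt (fun s : ℝ => ((Real.sqrt s)⁻¹) ^ 2 + 1 / 2 * ((Real.sqrt s)⁻¹) ^ 3)
      (-((Real.sqrt r)⁻¹) ^ 4 - 3 / 4 * ((Real.sqrt r)⁻¹) ^ 5) r := by
  have h1 := ((th_t hr).pow 2).add (((th_t hr).pow 3).const_mul (1 / 2))
  have h2 : (↑(2 : ℕ) * (Real.sqrt r)⁻¹ ^ (2 - 1) * (-(1 / 2) * ((Real.sqrt r)⁻¹) ^ 3)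
      + 1 / 2 * (↑(3 : ℕ) * (Real.sqrt r)⁻¹ ^ (3 - 1) * (-(1 / 2) * ((Real.sqrt r)⁻¹) ^ 3)))
      = -((Real.sqrt r)⁻¹) ^ 4 - 3 / 4 * ((Real.sqrt r)⁻¹) ^ 5 := by
    push_cast
    ring
  rw [h2] at h1
  exact h1

/-- The outer barrier is a strict supersolution for `|x| ≥ r2` if `p(v) - p(v_d)` is small. -/
theorem th_be2 (hD : D.Ok) (hL : LinHyp D C0 lam) (hx : x ∈ cAnn D.R) {q : ℝ} (hq : D.p0 = 1 + q) (hq1 : q ≤ 1)
    (hr2 : r2 C0 q ≤ ‖x‖) (hsm : D.p (v x) - D.p (D.vd v x) ≤ q ^ 2 / (12 * Real.sqrt D.R)) :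
    tr2 (D.aa v x) (D2 (fun y : E3 => be2 C0 lam q ‖y‖) x)
      + ∑ i, D.bb v x i * D1 (fun y : E3 => be2 C0 lam q ‖y‖) x i
      < W.kt D.p (v x) * q1 (D.aa v x) (D1 (fun y : E3 => be2 C0 lam q ‖y‖) x) := by
  have hr0 := ko_r hx
  have hx0 : x ≠ 0 := norm_pos_iff.mp hr0
  have hq0 : 0 < q := by have := hD.one_lt_p0; linarith
  have hC := hL.nonneg
  have hr1 : 1 ≤ ‖x‖ := hx.1
  have hrr := rad_op (f := fun t : ℝ => be2 C0 lam q t)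
    (f1 := fun s : ℝ => ((Real.sqrt s)⁻¹) ^ 2 + 1 / 2 * ((Real.sqrt s)⁻¹) ^ 3)
    (f2 := -((Real.sqrt ‖x‖)⁻¹) ^ 4 - 3 / 4 * ((Real.sqrt ‖x‖)⁻¹) ^ 5) hx0
    (by
      filter_upwards [lt_mem_nhds hr0] with r hr
      exact th_be2_der hr) (th_be2_der2 hr0) (D.aa v x) (D.bb v x)
  have hrq := rad_q1 (f := fun t : ℝ => be2 C0 lam q t)
    (f1 := fun s : ℝ => ((Real.sqrt s)⁻¹) ^ 2 + 1 / 2 * ((Real.sqrt s)⁻¹) ^ 3) hx0 (th_be2_der hr0) (D.aa v x)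
  rw [hrr, hrq]
  obtain ⟨h1, h2, h3, h4, h5, h6, h7⟩ := ko_main (v := v) hD hL hx
  have h8 := (abs_le.mp (ko_bx2 (v := v) hD hL hx)).2
  have hP := (ko_P (v := v) (x := x) hD)
  have hP0 := hD.p_ge (v x)
  have hP2 := hD.p_le (v x)
  set t := (Real.sqrt ‖x‖)⁻¹ with ht
  have hs0 : 0 < Real.sqrt ‖x‖ := Real.sqrt_pos.mpr hr0
  have hs1 : 1 ≤ Real.sqrt ‖x‖ := by rw [← Real.sqrt_one]; exact Real.sqrt_le_sqrt hr1
  have ht0 : 0 < t := by positivity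
  have ht1 : t ≤ 1 := inv_le_one_of_one_le₀ hs1
  have htr : t ^ 2 = 1 / ‖x‖ := by rw [ht, inv_pow, Real.sq_sqrt hr0.le]; ring
  have hxt : ∀ w : ℝ, w / ‖x‖ = w * t ^ 2 := by intro w; rw [htr]; ring
  have hxt2 : ∀ w : ℝ, w / ‖x‖ ^ 2 = w * t ^ 4 := by
    intro w
    rw [show t ^ 4 = (t ^ 2) ^ 2 by ring, htr]; ring
  rw [hxt] at h2 h3 h4 h5 h6
  rw [hxt2] at h8
  rw [hxt]
  set X := X0 (D.aa v x) x with hX
  set T := tr0 (D.aa v x) with hT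
  set Bx := bx (D.bb v x) x with hBx
  set S := (2 - D.p (D.vd v x)) * vsq (D.nn v x) with hS
  set b := D.p (v x) - 1 with hb
  set γ := W.kt D.p (v x) with hγ
  have hbq : q ≤ b := by rw [hb]; linarith
  have hb0 : 0 < b := by linarith
  have hb1 : b ≤ 1 := by rw [hb]; linarith
  have hγe : γ = 2 / b - 1 := by
    rw [hγ, hb]
    unfold W.kt
    have h : D.p (v x) - 1 ≠ 0 := by
      have : 0 < D.p (v x) - 1 := by linarith
      exact this.ne'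
    field_simp
    ring
  have hγ1 : 1 ≤ γ := by
    rw [hγe]
    have : 2 ≤ 2 / b := by rw [le_div_iff₀ hb0]; linarith
    linarith
  set e := C0 * t ^ 2 with he
  have he0 : 0 ≤ e := by positivity
  set δ := q ^ 2 / (12 * Real.sqrt D.R) with hδ
  have hxR : ‖x‖ ≤ D.R := hx.2
  have hsR : Real.sqrt ‖x‖ ≤ Real.sqrt D.R := Real.sqrt_le_sqrt hxR
  have hδt : δ ≤ q ^ 2 / 12 * t := by
    rw [hδ, ht]
    have h : q ^ 2 / (12 * Real.sqrt D.R) = q ^ 2 / 12 * (Real.sqrt D.R)⁻¹ := by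
      rw [div_mul_eq_div_div]; rfl
    rw [h]
    exact mul_le_mul_of_nonneg_left (inv_anti₀ hs0 hsR) (by positivity)
  -- `S ≤ 1 - b + δ + 3 e`
  have hS1 : S ≤ 1 - b + δ + 3 * e := by
    have e1 : S ≤ (2 - D.p (D.vd v x)) * (1 + 3 * e) := h2
    have e2 : 2 - D.p (D.vd v x) ≤ 1 - b + δ := by rw [hb]; linarith
    have e3 : 2 - D.p (D.vd v x) ≤ 1 := by rw [hq] at hP; linarith [hP.1]
    nlinarith
  have hSq : S ≤ 1 - q + 3 * e := by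
    have e1 : S ≤ (2 - D.p (D.vd v x)) * (1 + 3 * e) := h2
    have e2 : 2 - D.p (D.vd v x) ≤ 1 - q := by rw [hq] at hP; linarith [hP.1]
    nlinarith
  -- the main bracket
  have hinv : 1 / b ≤ 1 / q := one_div_le_one_div_of_le hq0 hbq
  have hinv0 : 0 < 1 / b := by positivity
  have hiq : 1 ≤ 1 / q := by rw [le_div_iff₀ hq0]; linarith
  have hE1 : T - (2 + γ) * X ≤ 2 * δ / q + 18 * e / q := by
    have e1 : (2 + γ) * (1 - 3 * e - S) ≤ (2 + γ) * X := mul_le_mul_of_nonneg_left h5 (by linarith)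
    have e2 : T - (2 + γ) * X ≤ 3 + 3 * e - S - (1 + 2 / b) * (1 - 3 * e - S) := by
      have : 2 + γ = 1 + 2 / b := by rw [hγe]; ring
      rw [this] at e1
      rw [this]
      linarith
    have e3 : 3 + 3 * e - S - (1 + 2 / b) * (1 - 3 * e - S) = 2 * (1 / b) * (b - 1 + S) + 6 * e + 6 * e * (1 / b) := by
      field_simp
      ring
    have e4 : 2 * (1 / b) * (b - 1 + S) ≤ 2 * (1 / b) * (δ + 3 * e) :=
      mul_le_mul_of_nonneg_left (by linarith) (by positivity)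
    have hδ0 : 0 ≤ δ := by rw [hδ]; positivity
    have e5 : 2 * (1 / b) * (δ + 3 * e) ≤ 2 * (1 / q) * (δ + 3 * e) := by
      refine mul_le_mul_of_nonneg_right ?_ (by positivity)
      linarith
    have e6 : 6 * e * (1 / b) ≤ 6 * e * (1 / q) := mul_le_mul_of_nonneg_left hinv (by positivity)
    have e7 : 6 * e ≤ 6 * e * (1 / q) := le_mul_of_one_le_right (by positivity) hiq
    have e8 : 2 * δ / q + 18 * e / q = 2 * (1 / q) * (δ + 3 * e) + 6 * e * (1 / q) + 6 * e * (1 / q) := by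
      field_simp
      ring
    linarith
  have hXq : q - 6 * e ≤ X := by linarith
  have hqX : 0 ≤ X := by
    have h10 : 0 ≤ (D.p0 - 1) * lam := mul_nonneg (by linarith) hL.lam_pos.le
    linarith
  have hE2 : (1 / 2) * T - (5 / 4 + γ) * X ≤ δ / q + 14 * e / q - 3 / 4 * q := by
    have e1 : (1 / 2) * T - (5 / 4 + γ) * X = (1 / 2) * (T - (2 + γ) * X) - (1 / 4 + γ / 2) * X := by ring
    have e2 : 3 / 4 * X ≤ (1 / 4 + γ / 2) * X := mul_le_mul_of_nonneg_right (by linarith) hqX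
    have e3 : (9 / 2) * e ≤ 5 * e / q := by
      rw [le_div_iff₀ hq0]
      nlinarith
    have e4 : (1 / 2) * (2 * δ / q + 18 * e / q) = δ / q + 9 * e / q := by ring
    have e5 : 14 * e / q = 9 * e / q + 5 * e / q := by ring
    rw [e1]
    linarith
  have hBx : (t ^ 2 + 1 / 2 * t ^ 3) * Bx ≤ 3 / 2 * (Bd C0 * C0) * t ^ 6 := by
    have hBd : 0 ≤ Bd C0 := by unfold Bd; positivity
    have e1 : 0 ≤ t ^ 2 + 1 / 2 * t ^ 3 := by positivity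
    have e2 : t ^ 2 + 1 / 2 * t ^ 3 ≤ 3 / 2 * t ^ 2 := by nlinarith [sq_nonneg t]
    have e3 : 0 ≤ Bd C0 * C0 * t ^ 4 := by positivity
    calc (t ^ 2 + 1 / 2 * t ^ 3) * Bx ≤ (t ^ 2 + 1 / 2 * t ^ 3) * (Bd C0 * C0 * t ^ 4) :=
          mul_le_mul_of_nonneg_left h8 e1
      _ ≤ (3 / 2 * t ^ 2) * (Bd C0 * C0 * t ^ 4) := mul_le_mul_of_nonneg_right e2 e3
      _ = 3 / 2 * (Bd C0 * C0) * t ^ 6 := by ring
  -- the radius
  have hC2 : 0 ≤ C2 C0 q := by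
    unfold C2 Bd
    positivity
  have hC2t : C2 C0 q * t ≤ q / 4 := by
    have e1 : (4 * C2 C0 q / q) ^ 2 ≤ ‖x‖ := by
      have : r2 C0 q = (4 * C2 C0 q / q) ^ 2 + 1 := rfl
      linarith
    have e2 : 4 * C2 C0 q / q ≤ Real.sqrt ‖x‖ := Real.le_sqrt_of_sq_le e1
    rw [div_le_iff₀ hq0] at e2
    rw [ht, ← div_eq_mul_inv, div_le_iff₀ hs0]
    linarith
  have hδq : 3 * δ / q ≤ q / 4 * t := by
    rw [div_le_iff₀ hq0]
    nlinarith
  have hfin : (-t ^ 4 - 3 / 4 * t ^ 5) * X + (t ^ 2 + 1 / 2 * t ^ 3) * t ^ 2 * (T - X)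
      + (t ^ 2 + 1 / 2 * t ^ 3) * Bx - γ * ((t ^ 2 + 1 / 2 * t ^ 3) ^ 2 * X)
      = t ^ 4 * (T - (2 + γ) * X) + t ^ 5 * ((1 / 2) * T - (5 / 4 + γ) * X) - 1 / 4 * γ * X * t ^ 6
        + (t ^ 2 + 1 / 2 * t ^ 3) * Bx := by ring
  have g1 : t ^ 4 * (T - (2 + γ) * X) ≤ t ^ 4 * (2 * δ / q + 18 * e / q) :=
    mul_le_mul_of_nonneg_left hE1 (by positivity)
  have g2 : t ^ 5 * ((1 / 2) * T - (5 / 4 + γ) * X) ≤ t ^ 5 * (δ / q + 14 * e / q - 3 / 4 * q) :=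
    mul_le_mul_of_nonneg_left hE2 (by positivity)
  have g3 : 0 ≤ 1 / 4 * γ * X * t ^ 6 := by positivity
  have hδ0 : 0 ≤ δ := by rw [hδ]; positivity
  have g4 : t ^ 5 * (δ / q) ≤ t ^ 4 * (δ / q) := by
    refine mul_le_mul_of_nonneg_right ?_ (by positivity)
    exact pow_le_pow_of_le_one ht0.le ht1 (by norm_num)
  have g5 : t ^ 5 * (14 * e / q) ≤ t ^ 4 * (14 * e / q) := by
    refine mul_le_mul_of_nonneg_right ?_ (by positivity)
    exact pow_le_pow_of_le_one ht0.le ht1 (by norm_num)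
  have g6 : t ^ 4 * (18 * e / q) + t ^ 4 * (14 * e / q) + 3 / 2 * (Bd C0 * C0) * t ^ 6 = t ^ 5 * (C2 C0 q * t) := by
    rw [he]
    unfold C2
    field_simp
    ring
  have g7 : t ^ 5 * (C2 C0 q * t) ≤ t ^ 5 * (q / 4) := mul_le_mul_of_nonneg_left hC2t (by positivity)
  have g8 : t ^ 4 * (3 * δ / q) ≤ t ^ 4 * (q / 4 * t) := mul_le_mul_of_nonneg_left hδq (by positivity)
  have g9 : t ^ 4 * (2 * δ / q) + t ^ 4 * (δ / q) = t ^ 4 * (3 * δ / q) := by ring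
  have g10 : 0 < q * t ^ 5 := by positivity
  have g11 : t ^ 4 * (2 * δ / q + 18 * e / q) = t ^ 4 * (2 * δ / q) + t ^ 4 * (18 * e / q) := by ring
  have g12 : t ^ 5 * (δ / q + 14 * e / q - 3 / 4 * q) = t ^ 5 * (δ / q) + t ^ 5 * (14 * e / q) - 3 / 4 * (q * t ^ 5) := by ring
  have g13 : t ^ 4 * (q / 4 * t) = 1 / 4 * (q * t ^ 5) := by ring
  have g14 : t ^ 5 * (q / 4) = 1 / 4 * (q * t ^ 5) := by ring
  have key : (-t ^ 4 - 3 / 4 * t ^ 5) * X + (t ^ 2 + 1 / 2 * t ^ 3) * t ^ 2 * (T - X)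
      + (t ^ 2 + 1 / 2 * t ^ 3) * Bx - γ * ((t ^ 2 + 1 / 2 * t ^ 3) ^ 2 * X) < 0 := by
    rw [hfin]
    linarith
  linarith

end UMB.B
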