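import Pool.Agent.Lib.UMB.B.Ct
import Pool.Agent.Lib.UMB.B.Rad
import Pool.Agent.Lib.UMB.B.Ko
import Pool.Agent.Lib.UMB.B.Mx

/-! # UMB.B, chunk Vu: the upper barrier `v ≤ (r1/|x|)^(q/2)` (theorem B1) -/

set_option autoImplicit false

open Filter Topology Set MeasureTheory
open scoped ContDiff BigOperators
open Pool.Agent.Lib.PenroseSph (E3 Tens pd chr)
open UMB.Lin (Ann cAnn)

namespace UMB.B

variable {D : OpData} {C0 lam : ℝ} {v : E3 → ℝ} {x : E3}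

theorem vu_der {s a r : ℝ} (hr : 0 < r) :
    HasDerivAt (fun t : ℝ => s * t ^ (-a)) (s * (-a * r ^ (-a - 1))) r :=
  (Real.hasDerivAt_rpow_const (Or.inl hr.ne')).const_mul s

theorem vu_der2 {s a r : ℝ} (hr : 0 < r) :
    HasDerivAt (fun t : ℝ => s * (-a * t ^ (-a - 1))) (s * (-a * ((-a - 1) * r ^ (-a - 1 - 1)))) r :=
  ((Real.hasDerivAt_rpow_const (Or.inl hr.ne')).const_mul (-a)).const_mul s

theorem vu_strict (hD : D.Ok) (hL : LinHyp D C0 lam) (hx : x ∈ cAnn D.R) {q s : ℝ} (hq : D.p0 = 1 + q) (hq1 : q ≤ 1)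
    (hs : 0 < s) (hr : 1 + 100 * C0 / q ≤ ‖x‖) :
    tr2 (D.aa v x) (D2 (fun y : E3 => s * ‖y‖ ^ (-(q / 2))) x)
      + ∑ i, D.bb v x i * D1 (fun y : E3 => s * ‖y‖ ^ (-(q / 2))) x i < 0 := by
  have hr0 := ko_r hx
  have hx0 : x ≠ 0 := norm_pos_iff.mp hr0
  have hq0 : 0 < q := by have := hD.one_lt_p0; linarith
  have hC := hL.nonneg
  have he0 : 0 ≤ C0 / ‖x‖ := div_nonneg hC hr0.le
  have he : C0 / ‖x‖ < q / 100 := by
    rw [div_lt_iff₀ hr0]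
    have h1 : 100 * C0 / q < ‖x‖ := by linarith
    rw [div_lt_iff₀ hq0] at h1
    linarith
  set a := q / 2 with ha
  have ha0 : 0 < a := by positivity
  have hrr := rad_op (f := fun t : ℝ => s * t ^ (-a)) (f1 := fun t : ℝ => s * (-a * t ^ (-a - 1)))
    (f2 := s * (-a * ((-a - 1) * ‖x‖ ^ (-a - 1 - 1)))) hx0
    (by
      filter_upwards [lt_mem_nhds hr0] with r hr
      exact vu_der hr) (vu_der2 hr0) (D.aa v x) (D.bb v x)
  rw [hrr]
  obtain ⟨h1, h2, h3, h4, h5, h6, h7⟩ := ko_main (v := v) hD hL hx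
  have h8 := abs_le.mp (ko_bx1 (v := v) hD hL hx (by linarith))
  have hP := (ko_P (v := v) (x := x) hD)
  set c := s * ‖x‖ ^ (-a - 1 - 1) with hc
  have hc0 : 0 < c := by positivity
  have e1 : s * (-a * ((-a - 1) * ‖x‖ ^ (-a - 1 - 1))) = a * (a + 1) * c := by rw [hc]; ring
  have e2 : ‖x‖ ^ (-a - 1) = ‖x‖ * ‖x‖ ^ (-a - 1 - 1) := by
    have h := Real.rpow_add_one hr0.ne' (-a - 1 - 1)
    rw [show (-a - 1 - 1 + 1 : ℝ) = -a - 1 by ring] at h
    rw [h]; ring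
  have e3 : s * (-a * ‖x‖ ^ (-a - 1)) = - (a * c * ‖x‖) := by rw [hc, e2]; ring
  simp only [e3]
  rw [e1]
  have e4 : -(a * c * ‖x‖) / ‖x‖ = -(a * c) := by field_simp
  rw [e4]
  have e5 : a * (a + 1) * c * X0 (D.aa v x) x + -(a * c) * (tr0 (D.aa v x) - X0 (D.aa v x) x)
      + -(a * c * ‖x‖) * bx (D.bb v x) x
      = a * c * ((a + 2) * X0 (D.aa v x) x - tr0 (D.aa v x) - ‖x‖ * bx (D.bb v x) x) := by ring
  rw [e5]
  have e6 : ‖x‖ * (26 * (C0 / ‖x‖ ^ 2)) = 26 * (C0 / ‖x‖) := by field_simp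
  have e7 : - (‖x‖ * bx (D.bb v x) x) ≤ 26 * (C0 / ‖x‖) := by
    rw [← e6]
    nlinarith [h8.1]
  have e8 : (2 - D.p (D.vd v x)) * (1 + 3 * (C0 / ‖x‖)) ≤ (1 - q) * (1 + 3 * (C0 / ‖x‖)) := by
    refine mul_le_mul_of_nonneg_right ?_ (by positivity)
    rw [hq] at hP
    linarith [hP.1]
  have e9 : (a + 2) * X0 (D.aa v x) x ≤ (a + 2) * (1 + 3 * (C0 / ‖x‖)) :=
    mul_le_mul_of_nonneg_left h6 (by positivity)
  have e10 : (a + 2) * X0 (D.aa v x) x - tr0 (D.aa v x) - ‖x‖ * bx (D.bb v x) x < 0 := by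
    rw [ha] at e9 ⊢
    nlinarith [mul_nonneg he0 hq0.le]
  exact mul_neg_of_pos_of_neg (by positivity) e10

/-- THEOREM B1: `v ≤ (r1/|x|)^(q/2)` for `r1 ≥ 1 + 100 C0/q`. -/
theorem v_le (hD : D.Ok) (hL : LinHyp D C0 lam) (hv : W.Sol D v) {q r1 : ℝ} (hq : D.p0 = 1 + q) (hq1 : q ≤ 1)
    (hr1 : 1 + 100 * C0 / q ≤ r1) : ∀ x ∈ cAnn D.R, v x ≤ (r1 / ‖x‖) ^ (q / 2) := by
  have hq0 : 0 < q := by have := hD.one_lt_p0; linarith
  have hC := hL.nonneg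
  have hr10 : 1 ≤ r1 := by
    have : 0 ≤ 100 * C0 / q := by positivity
    linarith
  have hr1p : 0 < r1 := by linarith
  set s : ℝ := r1 ^ (q / 2) with hs
  have hs0 : 0 < s := by positivity
  have hβ : ∀ x : E3, 0 < ‖x‖ → (r1 / ‖x‖) ^ (q / 2) = s * ‖x‖ ^ (-(q / 2)) := by
    intro x hx
    rw [Real.div_rpow hr1p.le hx.le, Real.rpow_neg hx.le]
    rfl
  by_contra hcon
  push Not at hcon
  obtain ⟨x0, hx0, hv0⟩ := hcon
  have hcont : ContinuousOn (fun x : E3 => v x - s * ‖x‖ ^ (-(q / 2))) (cAnn D.R) := by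
    refine hv.cont.sub (continuousOn_const.mul ?_)
    refine ContinuousOn.rpow_const continuous_norm.continuousOn fun x hx => Or.inl ?_
    exact (ko_r hx).ne'
  obtain ⟨x, hx, hpos, -, hloc⟩ := mx_exists hcont hx0 (by rw [← hβ x0 (ko_r hx0)]; linarith)
    (fun x hx => by
      rw [hv.one x hx, hx]
      have h1 : 1 ≤ s := Real.one_le_rpow hr10 (by positivity)
      simp
      exact h1)
    (fun x hx => by
      rw [hv.zero x hx]
      have h1 : 0 ≤ ‖x‖ ^ (-(q / 2)) := by positivity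
      have h2 : 0 ≤ s * ‖x‖ ^ (-(q / 2)) := by positivity
      linarith)
  have hxc : x ∈ cAnn D.R := ⟨hx.1.le, hx.2.le⟩
  have hr0 := ko_r hxc
  have hxne : x ≠ 0 := norm_pos_iff.mp hr0
  have hrx : r1 < ‖x‖ := by
    by_contra hle
    push Not at hle
    have h1 : 1 ≤ (r1 / ‖x‖) ^ (q / 2) := Real.one_le_rpow ((one_le_div hr0).mpr hle) (by positivity)
    rw [hβ x hr0] at h1
    have h2 := hv.le_one x hxc
    linarith
  have hv2 : ContDiffAt ℝ 2 v x :=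
    ((hv.smooth x hx).contDiffAt ((mx_open D.R).mem_nhds hx)).of_le (by decide)
  have hβ2 : ContDiffAt ℝ 2 (fun y : E3 => s * ‖y‖ ^ (-(q / 2))) x := by
    refine contDiffAt_const.mul ?_
    refine rad_C2 (f := fun t : ℝ => t ^ (-(q / 2))) hxne ?_
    exact Real.contDiffAt_rpow_const_of_ne hr0.ne'
  have hmax : IsLocalMax (fun y => v y - s * ‖y‖ ^ (-(q / 2))) x := by
    filter_upwards [hloc] with y hy
    exact hy.2
  obtain ⟨c1, c2⟩ := contact hv2 hβ2 hmax (ko_symm (v := v) hD hxc) (ko_pos (v := v) hD hxc)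
  have hs1 := hv.solves x hx
  have hst := vu_strict (v := v) hD hL hxc hq hq1 hs0 (by linarith)
  have c3 : ∑ i, D.bb v x i * D1 v x i = ∑ i, D.bb v x i * D1 (fun y : E3 => s * ‖y‖ ^ (-(q / 2))) x i :=
    Finset.sum_congr rfl fun i _ => by rw [c1 i]
  rw [c3] at hs1
  linarith

end UMB.B
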