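import Pool.Agent.Lib.UMB.B.Th
import Pool.Agent.Lib.UMB.B.Vu
import Pool.Agent.Lib.UMB.B.Ff
import Pool.Agent.Lib.PenroseSph.SphAvg

/-! # UMB.B, chunk Up: the upper bound `θ ≤ log r + c` (theorem B2) -/

set_option autoImplicit false

open Filter Topology Set MeasureTheory
open scoped ContDiff BigOperators
open Pool.Agent.Lib.PenroseSph (E3 Tens pd chr)
open UMB.Lin (Ann cAnn)

namespace UMB.B

variable {D : OpData} {C0 lam : ℝ} {v : E3 → ℝ} {x : E3} {q : ℝ}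

theorem up_K1 (hL : LinHyp D C0 lam) (hq0 : 0 < q) : 2 ≤ K1 C0 lam q := by
  have hC := hL.nonneg
  have hlam := hL.lam_pos
  have hBd : 0 ≤ Bd C0 := by unfold Bd; positivity
  unfold K1
  have : 0 ≤ (3 + 3 * C0 + Bd C0 * C0) / (q * lam) := by positivity
  linarith

theorem up_r2 : 1 ≤ r2 C0 q := by
  unfold r2
  have := sq_nonneg (4 * C2 C0 q / q)
  linarith

theorem up_cc (hL : LinHyp D C0 lam) (hq0 : 0 < q) : 4 ≤ cc C0 lam q := by
  unfold cc
  have h1 := up_K1 hL hq0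
  have h2 : 1 ≤ r2 C0 q := up_r2
  nlinarith

/-- `β1 < β2` for `1 ≤ r ≤ r2`. -/
theorem up_lt (hL : LinHyp D C0 lam) (hq0 : 0 < q) {r : ℝ} (hr : 1 ≤ r) (hr2 : r ≤ r2 C0 q) :
    be1 C0 lam q r < be2 C0 lam q r := by
  have h1 := up_K1 hL hq0
  have h2 : 0 ≤ Real.log r := Real.log_nonneg hr
  have h3 : (Real.sqrt r)⁻¹ ≤ 1 := inv_le_one_of_one_le₀ (by rw [← Real.sqrt_one]; exact Real.sqrt_le_sqrt hr)
  unfold be1 be2 cc
  have h4 : K1 C0 lam q * (r - 1) ≤ K1 C0 lam q * r2 C0 q := mul_le_mul_of_nonneg_left (by linarith) (by linarith)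
  linarith

/-- `β2 ≤ β1` at the outer radius. -/
theorem up_outer (hL : LinHyp D C0 lam) (hq0 : 0 < q) {R : ℝ} (hR : Rm C0 lam q ≤ R) :
    be2 C0 lam q R ≤ be1 C0 lam q R := by
  have h1 := up_K1 hL hq0
  have h2 : 1 ≤ r2 C0 q := up_r2
  unfold Rm at hR
  have hR0 : 0 < R := by linarith
  have h3 : Real.log R ≤ R - 1 := Real.log_le_sub_one_of_pos hR0
  have h4 : 0 ≤ (Real.sqrt R)⁻¹ := by positivity
  unfold be1 be2 cc
  nlinarith

theorem up_be2_pos (hL : LinHyp D C0 lam) (hq0 : 0 < q) {r : ℝ} (hr : 1 ≤ r) : 0 < be2 C0 lam q r := by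
  have h1 := up_cc hL hq0
  have h2 : 0 ≤ Real.log r := Real.log_nonneg hr
  have h3 : (Real.sqrt r)⁻¹ ≤ 1 := inv_le_one_of_one_le₀ (by rw [← Real.sqrt_one]; exact Real.sqrt_le_sqrt hr)
  unfold be2
  linarith

theorem up_cont_th (hD : D.Ok) (hv : W.Sol D v) {κ : ℝ} (hκ : 0 < κ) :
    ContinuousOn (W.theta D.p κ v) (cAnn D.R) := by
  intro x hx
  have h1 : ContinuousAt (W.FF D.p κ) (v x) := (W.FF_deriv (th_expo hD) hκ (hv.nonneg x hx)).continuousAt
  exact ContinuousAt.comp_continuousWithinAt (f := v) h1 (hv.cont x hx)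

theorem up_C2_be1 (hx : x ≠ 0) : ContDiffAt ℝ 2 (fun y : E3 => be1 C0 lam q ‖y‖) x := by
  refine rad_C2 (f := fun t : ℝ => be1 C0 lam q t) hx ?_
  unfold be1
  fun_prop

theorem up_C2_be2 (hx : x ≠ 0) : ContDiffAt ℝ 2 (fun y : E3 => be2 C0 lam q ‖y‖) x := by
  have hr : 0 < ‖x‖ := norm_pos_iff.mpr hx
  refine rad_C2 (f := fun t : ℝ => be2 C0 lam q t) hx ?_
  unfold be2
  have h1 : ContDiffAt ℝ 2 Real.log ‖x‖ := Real.contDiffAt_log.mpr hr.ne'
  have h2 : ContDiffAt ℝ 2 Real.sqrt ‖x‖ := Real.contDiffAt_sqrt hr.ne'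
  exact (h1.add contDiffAt_const).sub (h2.inv (Real.sqrt_pos.mpr hr).ne')

/-- COMPARISON. -/
theorem up_cmp (hD : D.Ok) (hL : LinHyp D C0 lam) (hv : W.Sol D v) (hq : D.p0 = 1 + q) (hq1 : q ≤ 1)
    (hR : Rm C0 lam q ≤ D.R) {κ : ℝ} (hκ : 0 < κ) (hF : W.FF D.p κ 0 ≤ be2 C0 lam q D.R)
    (hsm : ∀ x ∈ cAnn D.R, D.p (v x) - D.p (D.vd v x) ≤ q ^ 2 / (12 * Real.sqrt D.R)) :
    ∀ x ∈ cAnn D.R, W.theta D.p κ v x ≤ be2 C0 lam q ‖x‖ := by
  have hq0 : 0 < q := by have := hD.one_lt_p0; linarith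
  by_contra hcon
  push Not at hcon
  obtain ⟨x0, hx0, hv0⟩ := hcon
  have hcont : ContinuousOn (fun x : E3 => W.theta D.p κ v x - min (be1 C0 lam q ‖x‖) (be2 C0 lam q ‖x‖)) (cAnn D.R) := by
    refine (up_cont_th hD hv hκ).sub (ContinuousOn.inf ?_ ?_)
    · intro x hx
      exact (up_C2_be1 (norm_pos_iff.mp (ko_r hx))).continuousAt.continuousWithinAt
    · intro x hx
      exact (up_C2_be2 (norm_pos_iff.mp (ko_r hx))).continuousAt.continuousWithinAt
  obtain ⟨x, hx, hpos, -, hloc⟩ := mx_exists hcont hx0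
    (by
      have := min_le_right (be1 C0 lam q ‖x0‖) (be2 C0 lam q ‖x0‖)
      linarith)
    (fun x hx => by
      have h1 : W.theta D.p κ v x = 0 := by
        unfold W.theta
        rw [hv.one x hx]
        exact W.FF_one _ _
      rw [h1, hx]
      have h2 : 0 ≤ min (be1 C0 lam q 1) (be2 C0 lam q 1) := by
        refine le_min ?_ (up_be2_pos hL hq0 le_rfl).le
        unfold be1
        simp
      linarith)
    (fun x hx => by
      have h1 : W.theta D.p κ v x = W.FF D.p κ 0 := by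
        unfold W.theta
        rw [hv.zero x hx]
      rw [h1, hx]
      have h2 : be2 C0 lam q D.R ≤ min (be1 C0 lam q D.R) (be2 C0 lam q D.R) :=
        le_min (up_outer hL hq0 hR) le_rfl
      linarith)
  have hxc : x ∈ cAnn D.R := ⟨hx.1.le, hx.2.le⟩
  have hr0 := ko_r hxc
  have hxne : x ≠ 0 := norm_pos_iff.mp hr0
  have hexpo := th_expo hD
  have h0 : ∀ x ∈ Ann D.R, 0 ≤ v x := fun x hx => hv.nonneg x ⟨hx.1.le, hx.2.le⟩
  have ht2 : ContDiffAt ℝ 2 (W.theta D.p κ v) x :=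
    ((W.theta_smooth hexpo hκ (mx_open D.R) hv.smooth h0 x hx).contDiffAt ((mx_open D.R).mem_nhds hx)).of_le (by decide)
  have heq := th_eq hD hv hκ hx
  have hγ1 : 1 ≤ W.kt D.p (v x) := (W.kt_bd hexpo (v x)).1
  rcases le_or_gt (be1 C0 lam q ‖x‖) (be2 C0 lam q ‖x‖) with hle | hlt
  · -- contact with the inner barrier
    have hmax : IsLocalMax (fun y => W.theta D.p κ v y - be1 C0 lam q ‖y‖) x := by
      filter_upwards [hloc] with y hy
      have h1 := hy.2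
      rw [min_eq_left hle] at h1
      have h2 := min_le_left (be1 C0 lam q ‖y‖) (be2 C0 lam q ‖y‖)
      linarith
    obtain ⟨c1, c2⟩ := contact ht2 (up_C2_be1 hxne) hmax (ko_symm (v := v) hD hxc) (ko_pos (v := v) hD hxc)
    have hst := th_be1 (v := v) hD hL hxc hq hγ1
    have c3 : ∑ i, D.bb v x i * D1 (W.theta D.p κ v) x i
        = ∑ i, D.bb v x i * D1 (fun y : E3 => be1 C0 lam q ‖y‖) x i :=
      Finset.sum_congr rfl fun i _ => by rw [c1 i]
    have c4 : D1 (W.theta D.p κ v) x = D1 (fun y : E3 => be1 C0 lam q ‖y‖) x := funext c1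
    rw [c3, c4] at heq
    linarith
  · have hr2 : r2 C0 q ≤ ‖x‖ := by
      by_contra hlt2
      push Not at hlt2
      exact absurd (up_lt hL hq0 hxc.1 hlt2.le) (not_lt.mpr hlt.le)
    have hmax : IsLocalMax (fun y => W.theta D.p κ v y - be2 C0 lam q ‖y‖) x := by
      filter_upwards [hloc] with y hy
      have h1 := hy.2
      rw [min_eq_right hlt.le] at h1
      have h2 := min_le_right (be1 C0 lam q ‖y‖) (be2 C0 lam q ‖y‖)
      linarith
    obtain ⟨c1, c2⟩ := contact ht2 (up_C2_be2 hxne) hmax (ko_symm (v := v) hD hxc) (ko_pos (v := v) hD hxc)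
    have hst := th_be2 (v := v) hD hL hxc hq hq1 hr2 (hsm x hxc)
    have c3 : ∑ i, D.bb v x i * D1 (W.theta D.p κ v) x i
        = ∑ i, D.bb v x i * D1 (fun y : E3 => be2 C0 lam q ‖y‖) x i :=
      Finset.sum_congr rfl fun i _ => by rw [c1 i]
    have c4 : D1 (W.theta D.p κ v) x = D1 (fun y : E3 => be2 C0 lam q ‖y‖) x := funext c1
    rw [c3, c4] at heq
    linarith

/-- Lower bound of `v` near the outer sphere. -/
theorem up_low (hD : D.Ok) (hv : W.Sol D v) {κ : ℝ} (hκ : 0 < κ) (hF : W.FF D.p κ 0 = be2 C0 lam q D.R)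
    (hcmp : ∀ x ∈ cAnn D.R, W.theta D.p κ v x ≤ be2 C0 lam q ‖x‖) :
    ∀ x ∈ cAnn D.R, κ * (1 - ‖x‖ / D.R) ≤ v x := by
  intro x hx
  have hr0 := ko_r hx
  have hR0 : 0 < D.R := lt_of_lt_of_le hr0 hx.2
  have h1 := ff_lip (th_expo hD) hκ (hv.nonneg x hx) (hv.le_one x hx)
  have h2 : W.FF D.p κ (v x) ≤ be2 C0 lam q ‖x‖ := hcmp x hx
  rw [hF] at h1
  have h3 : 1 - ‖x‖ / D.R ≤ be2 C0 lam q D.R - be2 C0 lam q ‖x‖ := by
    unfold be2
    have h4 : (Real.sqrt D.R)⁻¹ ≤ (Real.sqrt ‖x‖)⁻¹ :=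
      inv_anti₀ (Real.sqrt_pos.mpr hr0) (Real.sqrt_le_sqrt hx.2)
    have h5 : 1 - (D.R / ‖x‖)⁻¹ ≤ Real.log (D.R / ‖x‖) := Real.one_sub_inv_le_log_of_pos (by positivity)
    rw [Real.log_div hR0.ne' hr0.ne', inv_div] at h5
    linarith
  have h4 : 1 - ‖x‖ / D.R ≤ v x / κ := by linarith
  rw [le_div_iff₀ hκ] at h4
  linarith

theorem up_int (hv : ContinuousOn v (cAnn D.R)) {r : ℝ} (h1 : 1 ≤ r) (h2 : r ≤ D.R) {c : ℝ}
    (hc : ∀ x : E3, ‖x‖ = r → c ≤ v x) : c ≤ Par.mean v r := by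
  have hcn : Continuous fun n : Metric.sphere (0 : E3) 1 => v (r • (n : E3)) := by
    rw [continuous_iff_continuousAt]
    intro n
    have hm : ∀ m : Metric.sphere (0 : E3) 1, r • (m : E3) ∈ cAnn D.R := by
      intro m
      have : ‖r • (m : E3)‖ = r := by
        rw [norm_smul, Real.norm_of_nonneg (by linarith)]
        simp
      exact ⟨by rw [this]; exact h1, by rw [this]; exact h2⟩
    have h3 : ContinuousOn v (cAnn D.R) := hv
    have h4 : Continuous fun n : Metric.sphere (0 : E3) 1 => r • (n : E3) := by fun_prop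
    exact (h3.comp_continuous h4 hm).continuousAt
  have h5 : ∫ n : Metric.sphere (0 : E3) 1, c ∂(volume : Measure E3).toSphere
      ≤ ∫ n : Metric.sphere (0 : E3) 1, v (r • (n : E3)) ∂(volume : Measure E3).toSphere := by
    refine integral_mono (integrable_const c) (Pool.Agent.Lib.PenroseSph.integrable_S2 hcn) fun n => ?_
    refine hc _ ?_
    rw [norm_smul, Real.norm_of_nonneg (by linarith)]
    simp
  rw [integral_const, Pool.Agent.Lib.PenroseSph.sm_univ] at h5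
  unfold Par.mean
  have hpi := Real.pi_pos
  rw [one_div, inv_mul_eq_div, le_div_iff₀ (by positivity)]
  rw [smul_eq_mul] at h5
  linarith

end UMB.B
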